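import Pool.Agent.H34TP.Load
import Pool.Agent.R563.TP.Mom3

set_option autoImplicit false

/-!
# Quadratic queries with small loads: the abstract estimate

A query `q = (i, j)` of the class `cls e q = (j, e i)` is given by a complex matrix `N q` with the
index set `P`; every index belongs to a cell. The sums of the absolute values of the row `p` and of
the column `p` are at most `R` times the loads `lam1 q` and `lam2 q` of the cell of `p`.
-/

namespace Pool.Agent.H34QM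

open Finset Pool.Agent.R563.TP Pool.Agent.H34TP
open scoped Classical ComplexConjugate

section Vec

variable {X κ : Type} [Fintype X] [Fintype κ]

/-- one vector instead of many -/
theorem exists_vec (A : X → X → ℝ) (l : X → ℝ) (hl : ∀ x, 0 < l x) (f : κ → X → ℝ) {M T : ℝ}
    (hM : 0 < M) (hf : ∑ t, ∑ x, l x * f t x ^ 2 ≤ M)
    (hT : T ≤ ∑ t, ∑ x, ∑ y, f t x * A x y * f t y) :
    ∃ g : X → ℝ, ∑ x, l x * g x ^ 2 ≤ M ∧ T ≤ ∑ x, ∑ y, g x * A x y * g y := by
  rcases le_or_gt T 0 with h0 | h0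
  · exact ⟨fun _ => 0, by simpa using hM.le, by simpa using h0⟩
  set B : κ → ℝ := fun t => ∑ x, l x * f t x ^ 2 with hB
  set F : κ → ℝ := fun t => ∑ x, ∑ y, f t x * A x y * f t y with hF
  have hB0 : ∀ t, 0 ≤ B t := fun t => sum_nonneg fun x _ => mul_nonneg (hl x).le (sq_nonneg _)
  have hzero : ∀ t, B t = 0 → F t = 0 := by
    intro t ht
    have h1 : ∀ x, f t x = 0 := by
      intro x
      have h2 := (sum_eq_zero_iff_of_nonneg (fun x _ => mul_nonneg (hl x).le (sq_nonneg (f t x)))).1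
        ht x (mem_univ x)
      rcases mul_eq_zero.1 h2 with h3 | h3
      · exact absurd h3 (hl x).ne'
      · exact pow_eq_zero_iff (by norm_num) |>.1 h3
    simp only [hF, h1]
    simp
  obtain ⟨t, ht, hFt⟩ : ∃ t, 0 < B t ∧ T * B t ≤ M * F t := by
    by_contra hcon
    push Not at hcon
    have h1 : ∀ t, M * F t ≤ T * B t := by
      intro t
      rcases (hB0 t).eq_or_lt with h2 | h2
      · rw [hzero t h2.symm, ← h2, mul_zero, mul_zero]
      · exact (hcon t h2).le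
    have h2 : ∃ t, 0 < B t := by
      by_contra h3
      push Not at h3
      have h4 : ∑ t, F t = 0 := sum_eq_zero fun t _ => hzero t (le_antisymm (h3 t) (hB0 t))
      have h5 : T ≤ ∑ t, F t := hT
      rw [h4] at h5
      exact absurd h5 (not_le.2 h0)
    obtain ⟨t0, ht0⟩ := h2
    have h3 : ∑ t, M * F t < ∑ t, T * B t :=
      sum_lt_sum (fun t _ => h1 t) ⟨t0, mem_univ _, hcon t0 ht0⟩
    rw [← mul_sum, ← mul_sum] at h3
    have h4 : T * ∑ t, B t ≤ T * M := mul_le_mul_of_nonneg_left hf h0.le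
    have h5 : M * T ≤ M * ∑ t, F t := mul_le_mul_of_nonneg_left hT hM.le
    linarith
  refine ⟨fun x => √(M / B t) * f t x, ?_, ?_⟩
  · have h1 : ∑ x, l x * (√(M / B t) * f t x) ^ 2 = M / B t * B t := by
      rw [hB, mul_sum]
      refine sum_congr rfl fun x _ => ?_
      rw [mul_pow, Real.sq_sqrt (by positivity)]
      ring
    rw [h1, div_mul_cancel₀ _ ht.ne']
  · have h1 : ∑ x, ∑ y, √(M / B t) * f t x * A x y * (√(M / B t) * f t y) = M / B t * F t := by
      rw [hF, mul_sum]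
      refine sum_congr rfl fun x _ => ?_
      rw [mul_sum]
      refine sum_congr rfl fun y _ => ?_
      have h2 := Real.mul_self_sqrt (show 0 ≤ M / B t by positivity)
      calc √(M / B t) * f t x * A x y * (√(M / B t) * f t y) =
          (√(M / B t) * √(M / B t)) * (f t x * A x y * f t y) := by ring
        _ = _ := by rw [h2]
    rw [h1, div_mul_eq_mul_div, le_div_iff₀ ht]
    exact hFt

end Vec

/-! ### Loads -/

section Loads

variable {k u S : ℕ}

/-- the load of the cell `a` -/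
noncomputable def dg (lam : Fin k × Fin k → Fin S → ℝ) (a : Fin S) : ℝ := ∑ q, lam q a

/-- the load of the cell `a` by the class `l` -/
noncomputable def ld (lam : Fin k × Fin k → Fin S → ℝ) (e : Fin k → Fin u) (a : Fin S)
    (l : Fin k × Fin u) : ℝ := ∑ q, if cls e q = l then lam q a else 0

/-- the loads of the classes are small -/
def GoodL (lam : Fin k × Fin k → Fin S → ℝ) (m : ℕ) (e : Fin k → Fin u) : Prop :=
  ∀ (a : Fin S) (l : Fin k × Fin u), ld lam e a l ≤ 2 * dg lam a / u + m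

theorem dg_nonneg {lam : Fin k × Fin k → Fin S → ℝ} (h : ∀ q a, 0 ≤ lam q a) (a : Fin S) :
    0 ≤ dg lam a := sum_nonneg fun q _ => h q a

theorem ld_nonneg {lam : Fin k × Fin k → Fin S → ℝ} (h : ∀ q a, 0 ≤ lam q a) (e : Fin k → Fin u)
    (a : Fin S) (l : Fin k × Fin u) : 0 ≤ ld lam e a l :=
  sum_nonneg fun q _ => by split_ifs <;> [exact h q a; exact le_rfl]

theorem sum_dg {lam : Fin k × Fin k → Fin S → ℝ} (h : ∀ q, ∑ a, lam q a ≤ 1) :
    ∑ a, dg lam a ≤ (k : ℝ) ^ 2 := by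
  unfold dg
  rw [sum_comm]
  refine (sum_le_sum fun q _ => h q).trans (le_of_eq ?_)
  simp [sq]

theorem sum_ld (lam : Fin k × Fin k → Fin S → ℝ) (e : Fin k → Fin u) (a : Fin S) :
    ∑ l, ld lam e a l = dg lam a := by
  unfold ld dg
  rw [sum_comm]
  refine sum_congr rfl fun q _ => ?_
  simp

theorem bad_one' (hu : 1 ≤ u) {lam : Fin k × Fin k → Fin S → ℝ} (h0 : ∀ q a, 0 ≤ lam q a)
    (h1 : ∀ q a, lam q a ≤ 1) (m : ℕ) (a : Fin S) (l : Fin k × Fin u) :
    ((univ.filter fun e : Fin k → Fin u =>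
      ¬ (ld lam e a l ≤ 2 * dg lam a / u + m)).card : ℝ) ≤ (u : ℝ) ^ k * Real.exp (-m) := by
  have hu' : (0 : ℝ) < u := by exact_mod_cast hu
  obtain ⟨j, c⟩ := l
  let v : Fin k → ℝ := fun i => lam (i, j) a
  have hc := chernoff hu v one_pos (fun i => h0 _ _) (fun i => h1 _ _) c m
  rw [one_mul] at hc
  have h2 : ∀ e : Fin k → Fin u, ld lam e a (j, c) = ∑ i, (if e i = c then v i else 0) := by
    intro e
    unfold ld cls
    rw [Fintype.sum_prod_type]
    refine sum_congr rfl fun i _ => ?_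
    rw [Finset.sum_eq_single j]
    · simp only [v, Prod.mk.injEq, true_and]
    · intro j' _ hj'
      rw [if_neg]
      intro h4
      simp only [Prod.mk.injEq] at h4
      exact hj' h4.1
    · simp
  have h3 : ∑ i, v i ≤ dg lam a := by
    unfold dg
    rw [Fintype.sum_prod_type]
    refine sum_le_sum fun i _ => ?_
    exact Finset.single_le_sum (f := fun j => lam (i, j) a) (fun j _ => h0 _ _) (mem_univ j)
  refine le_trans ?_ hc
  have h4 : (univ.filter fun e : Fin k → Fin u =>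
      ¬ (ld lam e a (j, c) ≤ 2 * dg lam a / u + m)) ⊆
      univ.filter fun e : Fin k → Fin u =>
      ¬ (∑ i, (if e i = c then v i else 0) ≤ 2 * (∑ i, v i) / u + m) := by
    intro e he
    rw [Finset.mem_filter] at he ⊢
    refine ⟨mem_univ _, fun h5 => he.2 ?_⟩
    rw [h2]
    refine h5.trans ?_
    gcongr
  exact_mod_cast Finset.card_le_card h4

theorem bad_all' (hu : 1 ≤ u) {lam : Fin k × Fin k → Fin S → ℝ} (h0 : ∀ q a, 0 ≤ lam q a)
    (h1 : ∀ q a, lam q a ≤ 1) (m : ℕ) :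
    ((univ.filter fun e : Fin k → Fin u => ¬ GoodL lam m e).card : ℝ) ≤
      S * (k * u) * ((u : ℝ) ^ k * Real.exp (-m)) := by
  have h2 : (univ.filter fun e : Fin k → Fin u => ¬ GoodL lam m e) ⊆
      (univ : Finset (Fin S × (Fin k × Fin u))).biUnion fun x =>
        univ.filter fun e : Fin k → Fin u => ¬ (ld lam e x.1 x.2 ≤ 2 * dg lam x.1 / u + m) := by
    intro e he
    rw [Finset.mem_filter] at he
    unfold GoodL at he
    push Not at he
    obtain ⟨-, a, l, h2⟩ := he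
    rw [Finset.mem_biUnion]
    exact ⟨(a, l), mem_univ _, Finset.mem_filter.2 ⟨mem_univ _, not_le.2 h2⟩⟩
  have h3 : ((univ.filter fun e : Fin k → Fin u => ¬ GoodL lam m e).card : ℝ) ≤
      ∑ x : Fin S × (Fin k × Fin u), ((univ.filter fun e : Fin k → Fin u =>
          ¬ (ld lam e x.1 x.2 ≤ 2 * dg lam x.1 / u + m)).card : ℝ) := by
    exact_mod_cast (Finset.card_le_card h2).trans Finset.card_biUnion_le
  refine h3.trans ((sum_le_sum fun x _ => bad_one' hu h0 h1 m x.1 x.2).trans ?_)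
  rw [Finset.sum_const, Finset.card_univ, Fintype.card_prod, Fintype.card_prod, Fintype.card_fin,
    Fintype.card_fin, Fintype.card_fin, nsmul_eq_mul]
  push_cast
  exact le_rfl

end Loads

/-! ### Real coordinates -/

/-- real and imaginary part -/
noncomputable def pt (z : ℂ) (s : Bool) : ℝ := if s = true then z.im else z.re

/-- the entries in real coordinates -/
noncomputable def cc (z : ℂ) (s s' : Bool) : ℝ :=
  if s = s' then z.re else if s = true then z.im else -z.im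

theorem abs_cc (z : ℂ) (s s' : Bool) : |cc z s s'| ≤ ‖z‖ := by
  unfold cc
  split_ifs
  · exact Complex.abs_re_le_norm z
  · exact Complex.abs_im_le_norm z
  · rw [abs_neg]; exact Complex.abs_im_le_norm z

theorem cc_form (a z b : ℂ) : ∑ s, ∑ s', pt a s * cc z s s' * pt b s' = (conj a * z * b).re := by
  simp only [Fintype.sum_bool, pt, cc, Complex.mul_re, Complex.mul_im, Complex.conj_re,
    Complex.conj_im]
  simp
  ring

theorem pt_sq (a : ℂ) : ∑ s, pt a s ^ 2 = ‖a‖ ^ 2 := by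
  simp only [Fintype.sum_bool, pt]
  rw [← Complex.normSq_eq_norm_sq, Complex.normSq_apply]
  simp
  ring

section Core

variable {k u S : ℕ} {P : Type} [Fintype P]

/-- the entries -/
noncomputable def entQ (N : Fin k × Fin k → P → P → ℂ) (e : Fin k → Fin u) (l : Fin k × Fin u)
    (x y : P × Bool) : ℝ := ∑ q, if cls e q = l then cc (N q x.1 y.1) x.2 y.2 else 0

/-- the symmetric matrices -/
noncomputable def CQ (N : Fin k × Fin k → P → P → ℂ) (e : Fin k → Fin u) (l : Fin k × Fin u) :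
    (P × Bool) ⊕ (P × Bool) → (P × Bool) ⊕ (P × Bool) → ℝ
  | Sum.inl a, Sum.inr b => entQ N e l a b
  | Sum.inr b, Sum.inl a => entQ N e l a b
  | Sum.inl _, Sum.inl _ => 0
  | Sum.inr _, Sum.inr _ => 0

omit [Fintype P] in
theorem CQ_symm (N : Fin k × Fin k → P → P → ℂ) (e : Fin k → Fin u) (l : Fin k × Fin u)
    (x y : (P × Bool) ⊕ (P × Bool)) : CQ N e l x y = CQ N e l y x := by
  rcases x with x | x <;> rcases y with y | y <;> rfl

omit [Fintype P] in
theorem abs_entQ (N : Fin k × Fin k → P → P → ℂ) (e : Fin k → Fin u) (l : Fin k × Fin u)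
    (x y : P × Bool) : |entQ N e l x y| ≤ ∑ q, if cls e q = l then ‖N q x.1 y.1‖ else 0 := by
  unfold entQ
  refine (abs_sum_le_sum_abs _ _).trans (sum_le_sum fun q _ => ?_)
  split_ifs
  · exact abs_cc _ _ _
  · simp

variable {cell : P → Fin S} {lam1 lam2 : Fin k × Fin k → Fin S → ℝ} {R : ℝ}

theorem rowQ1 {N : Fin k × Fin k → P → P → ℂ} (hN : ∀ q p, ∑ p', ‖N q p p'‖ ≤ R * lam1 q (cell p))
    (e : Fin k → Fin u) (l : Fin k × Fin u) (x : P × Bool) :
    ∑ y, |entQ N e l x y| ≤ 2 * R * ld lam1 e (cell x.1) l := by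
  refine (sum_le_sum fun y _ => abs_entQ N e l x y).trans ?_
  rw [Fintype.sum_prod_type]
  have h1 : ∀ p' : P, ∑ _s : Bool, ∑ q, (if cls e q = l then ‖N q x.1 p'‖ else 0) =
      2 * ∑ q, (if cls e q = l then ‖N q x.1 p'‖ else 0) := by
    intro p'
    simp
  simp only [h1]
  rw [← mul_sum, sum_comm, mul_assoc]
  refine mul_le_mul_of_nonneg_left ?_ (by norm_num)
  unfold ld
  rw [mul_sum]
  refine sum_le_sum fun q _ => ?_
  split_ifs
  · exact hN q x.1
  · simp

theorem rowQ2 {N : Fin k × Fin k → P → P → ℂ} (hN : ∀ q p', ∑ p, ‖N q p p'‖ ≤ R * lam2 q (cell p'))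
    (e : Fin k → Fin u) (l : Fin k × Fin u) (y : P × Bool) :
    ∑ x, |entQ N e l x y| ≤ 2 * R * ld lam2 e (cell y.1) l := by
  refine (sum_le_sum fun x _ => abs_entQ N e l x y).trans ?_
  rw [Fintype.sum_prod_type]
  have h1 : ∀ p : P, ∑ _s : Bool, ∑ q, (if cls e q = l then ‖N q p y.1‖ else 0) =
      2 * ∑ q, (if cls e q = l then ‖N q p y.1‖ else 0) := by
    intro p'
    simp
  simp only [h1]
  rw [← mul_sum, sum_comm, mul_assoc]
  refine mul_le_mul_of_nonneg_left ?_ (by norm_num)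
  unfold ld
  rw [mul_sum]
  refine sum_le_sum fun q _ => ?_
  split_ifs
  · exact hN q y.1
  · simp

theorem rowQ {N : Fin k × Fin k → P → P → ℂ} (hN1 : ∀ q p, ∑ p', ‖N q p p'‖ ≤ R * lam1 q (cell p))
    (hN2 : ∀ q p', ∑ p, ‖N q p p'‖ ≤ R * lam2 q (cell p'))
    (e : Fin k → Fin u) (l : Fin k × Fin u) (x : (P × Bool) ⊕ (P × Bool)) :
    ∑ y, |CQ N e l x y| ≤ 2 * R * Sum.elim (fun a => ld lam1 e (cell a.1) l)
      (fun b => ld lam2 e (cell b.1) l) x := by
  rw [Fintype.sum_sum_type]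
  rcases x with a | b
  · simp only [CQ, abs_zero, sum_const_zero, zero_add, Sum.elim_inl]
    exact rowQ1 hN1 e l a
  · simp only [CQ, abs_zero, sum_const_zero, add_zero, Sum.elim_inr]
    exact rowQ2 hN2 e l b

/-- the vectors -/
noncomputable def vQ (Φ : P → ℂ) : (P × Bool) ⊕ (P × Bool) → ℝ :=
  Sum.elim (fun a => pt (Φ a.1) a.2) (fun b => pt (Φ b.1) b.2)

/-- the value of a query -/
noncomputable def qv (N : P → P → ℂ) (Φ : P → ℂ) : ℝ := (∑ p, ∑ p', conj (Φ p) * N p p' * Φ p').re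

theorem formQ (N : Fin k × Fin k → P → P → ℂ) (e : Fin k → Fin u) (Φ : P → ℂ)
    (Y : Fin k × Fin u → Bool) :
    ∑ x, ∑ y, vQ Φ x * (∑ l, sg (Y l) * CQ N e l x y) * vQ Φ y =
      2 * ∑ q, sg (Y (cls e q)) * qv (N q) Φ := by
  have h0 : ∀ a b : P × Bool, ∑ l, sg (Y l) * entQ N e l a b =
      ∑ q, sg (Y (cls e q)) * cc (N q a.1 b.1) a.2 b.2 := by
    intro a b
    unfold entQ
    simp only [mul_sum]
    rw [sum_comm]
    refine sum_congr rfl fun q _ => ?_
    rw [Finset.sum_eq_single (cls e q)]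
    · simp
    · intro l _ hl
      rw [if_neg (fun h => hl h.symm), mul_zero]
    · simp
  have h1 : ∑ a : P × Bool, ∑ b : P × Bool, pt (Φ a.1) a.2 * (∑ l, sg (Y l) * entQ N e l a b) *
      pt (Φ b.1) b.2 = ∑ q, sg (Y (cls e q)) * qv (N q) Φ := by
    simp only [h0]
    have h2 : ∀ q, sg (Y (cls e q)) * qv (N q) Φ = ∑ a : P × Bool, ∑ b : P × Bool,
        pt (Φ a.1) a.2 * (sg (Y (cls e q)) * cc (N q a.1 b.1) a.2 b.2) * pt (Φ b.1) b.2 := by
      intro q
      unfold qv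
      rw [Complex.re_sum, mul_sum, Fintype.sum_prod_type]
      refine sum_congr rfl fun p _ => ?_
      rw [Complex.re_sum, mul_sum]
      have h3 : ∀ s : Bool, ∑ b : P × Bool, pt (Φ p) s * (sg (Y (cls e q)) *
          cc (N q p b.1) s b.2) * pt (Φ b.1) b.2 = ∑ p' : P, ∑ s' : Bool, pt (Φ p) s *
          (sg (Y (cls e q)) * cc (N q p p') s s') * pt (Φ p') s' := by
        intro s
        rw [Fintype.sum_prod_type]
      simp only [h3]
      rw [sum_comm]
      refine sum_congr rfl fun p' _ => ?_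
      rw [← cc_form, mul_sum]
      refine sum_congr rfl fun s _ => ?_
      rw [mul_sum]
      refine sum_congr rfl fun s' _ => ?_
      ring
    simp only [h2]
    rw [sum_comm (s := (univ : Finset (Fin k × Fin k)))]
    refine sum_congr rfl fun a _ => ?_
    rw [sum_comm (s := (univ : Finset (Fin k × Fin k)))]
    refine sum_congr rfl fun b _ => ?_
    rw [mul_sum, sum_mul]
  rw [Fintype.sum_sum_type]
  have h2 : ∀ a : P × Bool, ∑ y, vQ Φ (Sum.inl a) * (∑ l, sg (Y l) * CQ N e l (Sum.inl a) y) *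
      vQ Φ y = ∑ b : P × Bool, pt (Φ a.1) a.2 * (∑ l, sg (Y l) * entQ N e l a b) *
      pt (Φ b.1) b.2 := by
    intro a
    rw [Fintype.sum_sum_type]
    simp [CQ, vQ]
  have h3 : ∀ b : P × Bool, ∑ y, vQ Φ (Sum.inr b) * (∑ l, sg (Y l) * CQ N e l (Sum.inr b) y) *
      vQ Φ y = ∑ a : P × Bool, pt (Φ a.1) a.2 * (∑ l, sg (Y l) * entQ N e l a b) *
      pt (Φ b.1) b.2 := by
    intro b
    rw [Fintype.sum_sum_type]
    simp only [CQ, vQ, Sum.elim_inl, Sum.elim_inr, mul_zero, sum_const_zero, zero_mul, add_zero]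
    exact sum_congr rfl fun a _ => by ring
  simp only [h2, h3]
  rw [sum_comm (f := fun (b a : P × Bool) => pt (Φ a.1) a.2 * (∑ l, sg (Y l) * entQ N e l a b) *
    pt (Φ b.1) b.2), h1]
  ring

/-- the norm -/
theorem normQ {κ : Type} [Fintype κ] (Φ : κ → P → ℂ) {V T m : ℝ} (hT : 0 ≤ m / T)
    (hV : 0 ≤ V)
    (hΦ : ∀ a, ∑ t, ∑ p, (if cell p = a then ‖Φ t p‖ ^ 2 else 0) ≤ V)
    (h1 : ∀ q a, 0 ≤ lam1 q a) (h2 : ∀ q a, 0 ≤ lam2 q a)
    (hs1 : ∑ a, dg lam1 a ≤ m) (hs2 : ∑ a, dg lam2 a ≤ m) (hST : S * (m / T) ≤ m) :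
    ∑ t, ∑ x, (Sum.elim (fun a : P × Bool => dg lam1 (cell a.1) + m / T)
      (fun b : P × Bool => dg lam2 (cell b.1) + m / T) x) * vQ (Φ t) x ^ 2 ≤ 4 * V * m := by
  have key : ∀ lam : Fin k × Fin k → Fin S → ℝ, (∀ q a, 0 ≤ lam q a) → ∑ a, dg lam a ≤ m →
      ∑ t, ∑ a : P × Bool, (dg lam (cell a.1) + m / T) * pt (Φ t a.1) a.2 ^ 2 ≤ 2 * V * m := by
    intro lam h0 hs
    have e1 : ∀ t, ∑ a : P × Bool, (dg lam (cell a.1) + m / T) * pt (Φ t a.1) a.2 ^ 2 =
        ∑ a : Fin S, (dg lam a + m / T) * ∑ p, (if cell p = a then ‖Φ t p‖ ^ 2 else 0) := by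
      intro t
      rw [Fintype.sum_prod_type]
      have e2 : ∀ p : P, ∑ s : Bool, (dg lam (cell p) + m / T) * pt (Φ t p) s ^ 2 =
          (dg lam (cell p) + m / T) * ‖Φ t p‖ ^ 2 := by
        intro p
        rw [← mul_sum, pt_sq]
      simp only [e2, mul_sum]
      rw [sum_comm]
      refine sum_congr rfl fun p _ => ?_
      rw [Finset.sum_eq_single (cell p)]
      · simp
      · intro a _ ha
        rw [if_neg (Ne.symm ha), mul_zero]
      · simp
    simp only [e1]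
    rw [sum_comm]
    calc ∑ a : Fin S, ∑ t, (dg lam a + m / T) * ∑ p, (if cell p = a then ‖Φ t p‖ ^ 2 else 0)
        ≤ ∑ a : Fin S, (dg lam a + m / T) * V := by
          refine sum_le_sum fun a _ => ?_
          rw [← mul_sum]
          exact mul_le_mul_of_nonneg_left (hΦ a) (add_nonneg (dg_nonneg h0 a) hT)
      _ = (∑ a, dg lam a + S * (m / T)) * V := by
          rw [← sum_mul, sum_add_distrib]
          simp
      _ ≤ (m + m) * V := by
          refine mul_le_mul_of_nonneg_right (add_le_add hs hST) hV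
      _ = _ := by ring
  have e3 : ∀ t, ∑ x, (Sum.elim (fun a : P × Bool => dg lam1 (cell a.1) + m / T)
      (fun b : P × Bool => dg lam2 (cell b.1) + m / T) x) * vQ (Φ t) x ^ 2 =
      ∑ a : P × Bool, (dg lam1 (cell a.1) + m / T) * pt (Φ t a.1) a.2 ^ 2 +
      ∑ a : P × Bool, (dg lam2 (cell a.1) + m / T) * pt (Φ t a.1) a.2 ^ 2 := by
    intro t
    rw [Fintype.sum_sum_type]
    rfl
  simp only [e3]
  rw [sum_add_distrib]
  linarith [key lam1 h1 hs1, key lam2 h2 hs2]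

/-- **The abstract estimate.** -/
theorem coreQ {r m : ℕ} {κ : (Fin k × Fin u → Bool) → Type} [∀ Y, Fintype (κ Y)]
    {N : Fin k × Fin k → P → P → ℂ} {V δ : ℝ}
    (h1 : ∀ q a, 0 ≤ lam1 q a) (h2 : ∀ q a, 0 ≤ lam2 q a)
    (hs1 : ∀ q, ∑ a, lam1 q a ≤ 1) (hs2 : ∀ q, ∑ a, lam2 q a ≤ 1)
    (hN1 : ∀ q p, ∑ p', ‖N q p p'‖ ≤ R * lam1 q (cell p))
    (hN2 : ∀ q p', ∑ p, ‖N q p p'‖ ≤ R * lam2 q (cell p'))
    (hR : 1 ≤ R) (hV : 1 ≤ V) (hk : 1 ≤ k) (hu : 1 ≤ u) (hS : 1 ≤ S) (hr : 1 ≤ r)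
    (hkS : k ^ 2 ≤ u * S) (hcard : 4 * Fintype.card P ≤ 2 ^ (2 ^ r)) (hδ : 0 < δ) (hδ1 : δ ≤ 1)
    (e : Fin k → Fin u) (hg1 : GoodL lam1 m e) (hg2 : GoodL lam2 m e)
    (Φ : ∀ Y : Fin k × Fin u → Bool, κ Y → P → ℂ)
    (hΦ : ∀ Y a, ∑ t, ∑ p, (if cell p = a then ‖Φ Y t p‖ ^ 2 else 0) ≤ V)
    (h : δ * (k : ℝ) ^ 2 * 2 ^ (k * u) ≤
      ∑ Y, ∑ q, sg (Y (cls e q)) * ∑ t, qv (N q) (Φ Y t)) :
    δ ^ 2 * (k : ℝ) ^ 2 ≤ 256 * R ^ 2 * V ^ 2 * (2 + m) * 2 ^ r * S := by
  have hk0 : (0 : ℝ) < k := by exact_mod_cast hk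
  have hu0 : (0 : ℝ) < u := by exact_mod_cast hu
  have hS0 : (0 : ℝ) < S := by exact_mod_cast hS
  have hR0 : 0 < R := by linarith
  have hV0 : 0 < V := by linarith
  have hkS' : (k : ℝ) ^ 2 ≤ u * S := by exact_mod_cast hkS
  set K : ℝ := (k : ℝ) ^ 2 with hK
  have hKpos : 0 < K := by positivity
  have hm0 : (0 : ℝ) ≤ m := Nat.cast_nonneg m
  set θ : ℝ := (2 + m) * S / K with hθ
  have hθ0 : 0 < θ := by positivity
  by_cases hcase : (2 : ℝ) ^ r * θ ≤ 1
  · set l : (P × Bool) ⊕ (P × Bool) → ℝ := Sum.elim (fun a : P × Bool => dg lam1 (cell a.1) + K / S)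
      (fun b : P × Bool => dg lam2 (cell b.1) + K / S) with hl
    have hKS : 0 < K / S := by positivity
    have hlpos : ∀ x, 0 < l x := by
      intro x
      rcases x with a | a
      · have := dg_nonneg h1 (cell a.1)
        simp only [hl, Sum.elim_inl]; linarith
      · have := dg_nonneg h2 (cell a.1)
        simp only [hl, Sum.elim_inr]; linarith
    have hd1 : ∑ a, dg lam1 a ≤ K := sum_dg hs1
    have hd2 : ∑ a, dg lam2 a ≤ K := sum_dg hs2
    have hST : (S : ℝ) * (K / S) ≤ K := by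
      rw [mul_div_cancel₀ _ hS0.ne']
    have hM : 0 < 4 * V * K := by positivity
    -- the vectors
    have hvec : ∀ Y : Fin k × Fin u → Bool, ∃ g : (P × Bool) ⊕ (P × Bool) → ℝ,
        ∑ x, l x * g x ^ 2 ≤ 4 * V * K ∧
        2 * (∑ q, sg (Y (cls e q)) * ∑ t, qv (N q) (Φ Y t)) ≤
          ∑ x, ∑ y, g x * (∑ α, sg (Y α) * CQ N e α x y) * g y := by
      intro Y
      refine exists_vec (fun x y => ∑ α, sg (Y α) * CQ N e α x y) l hlpos
        (fun t => vQ (Φ Y t)) hM (normQ (Φ Y) hKS.le hV0.le (hΦ Y) h1 h2 hd1 hd2 hST) ?_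
      simp only [formQ]
      rw [← mul_sum, sum_comm]
      simp only [mul_sum]
      exact le_rfl
    choose g hg1' hg2' using hvec
    have hmom := mom ((P × Bool) ⊕ (P × Bool)) (Fin k × Fin u) (CQ N e) l (2 * R) (2 * R * θ)
      (4 * V * K) (δ / (2 * V)) r g (CQ_symm N e) hlpos (by positivity) (by positivity) hM hr
      (fun x => by
        refine (sum_le_sum fun α _ => rowQ hN1 hN2 e α x).trans ?_
        rw [← mul_sum]
        refine mul_le_mul_of_nonneg_left ?_ (by positivity)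
        rcases x with a | a
        · simp only [Sum.elim_inl, hl, sum_ld]; linarith
        · simp only [Sum.elim_inr, hl, sum_ld]; linarith)
      (fun x α => by
        refine (rowQ hN1 hN2 e α x).trans ?_
        have h5 : ∀ d : ℝ, 0 ≤ d → 2 * d / u + m ≤ θ * (d + K / S) := by
          intro d hd
          have h6 : 1 / (u : ℝ) ≤ S / K := by
            rw [div_le_div_iff₀ hu0 hKpos]
            linarith
          have h7 : 2 * d / u ≤ 2 * (S / K) * d := by
            have : 2 * d / u = 2 * (1 / u) * d := by ring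
            rw [this]
            gcongr
          have h8 : (m : ℝ) = m * (S / K) * (K / S) := by field_simp
          have h9 : θ = (2 + m) * (S / K) := by rw [hθ]; ring
          rw [h9]
          have h10 : 0 ≤ (S / K : ℝ) := by positivity
          have h11 : 0 ≤ m * (S / K) * d := by positivity
          have h12 : 0 ≤ 2 * (S / K) * (K / S) := by positivity
          nlinarith
        calc 2 * R * Sum.elim (fun a => ld lam1 e (cell a.1) α)
              (fun b => ld lam2 e (cell b.1) α) x ≤ 2 * R * (θ * l x) := by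
              refine mul_le_mul_of_nonneg_left ?_ (by positivity)
              rcases x with a | a
              · simp only [Sum.elim_inl, hl]
                exact (hg1 _ α).trans (h5 _ (dg_nonneg h1 _))
              · simp only [Sum.elim_inr, hl]
                exact (hg2 _ α).trans (h5 _ (dg_nonneg h2 _))
          _ = _ := by ring)
      (by nlinarith)
      (by
        rw [Fintype.card_sum, Fintype.card_prod, Fintype.card_bool]
        omega)
      hg1'
      (by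
        have hc : Fintype.card (Fin k × Fin u) = k * u := by simp
        rw [hc]
        have h9 : δ / (2 * V) * (4 * V * K) * 2 ^ (k * u) = 2 * (δ * K * 2 ^ (k * u)) := by
          field_simp
          ring
        rw [h9]
        refine (mul_le_mul_of_nonneg_left h (by norm_num)).trans ?_
        rw [mul_sum]
        refine le_trans (sum_le_sum fun Y _ => hg2' Y) (le_of_eq ?_)
        refine Finset.sum_congr ?_ fun _ _ => rfl
        ext
        simp)
    have h10 : δ ^ 2 / (4 * V ^ 2) ≤ 16 * (2 * R) * (2 * R * θ) * 2 ^ r := by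
      calc δ ^ 2 / (4 * V ^ 2) = (δ / (2 * V)) ^ 2 := by rw [div_pow, mul_pow]; norm_num
        _ ≤ _ := hmom
    rw [div_le_iff₀ (by positivity)] at h10
    have h11 : θ * K = (2 + m) * S := by rw [hθ]; field_simp
    calc δ ^ 2 * K ≤ (16 * (2 * R) * (2 * R * θ) * 2 ^ r * (4 * V ^ 2)) * K :=
          mul_le_mul_of_nonneg_right h10 hKpos.le
      _ = 256 * R ^ 2 * V ^ 2 * 2 ^ r * (θ * K) := by ring
      _ = _ := by rw [h11]; ring
  · push Not at hcase
    have h3 : K ≤ 2 ^ r * ((2 + m) * S) := by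
      have h4 : 2 ^ r * θ * K = 2 ^ r * ((2 + m) * S) := by rw [hθ]; field_simp
      rw [← h4]
      nlinarith
    have h5 : δ ^ 2 ≤ 1 := pow_le_one₀ hδ.le hδ1
    have h6 : 1 ≤ R ^ 2 * V ^ 2 := by
      have := one_le_pow₀ hR (n := 2)
      have := one_le_pow₀ hV (n := 2)
      nlinarith
    have h7 : 0 ≤ 2 ^ r * ((2 + (m : ℝ)) * S) := by positivity
    calc δ ^ 2 * K ≤ 1 * K := mul_le_mul_of_nonneg_right h5 hKpos.le
      _ ≤ 2 ^ r * ((2 + m) * S) := by rw [one_mul]; exact h3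
      _ ≤ 256 * (R ^ 2 * V ^ 2) * (2 ^ r * ((2 + m) * S)) := by nlinarith
      _ = _ := by ring

/-- a trivial bound -/
theorem triv {κ : Type} [Fintype κ] {N : P → P → ℂ} {V : ℝ} {lam1 lam2 : Fin S → ℝ}
    (h1 : ∀ a, 0 ≤ lam1 a) (h2 : ∀ a, 0 ≤ lam2 a)
    (hs1 : ∑ a, lam1 a ≤ 1) (hs2 : ∑ a, lam2 a ≤ 1)
    (hN1 : ∀ p, ∑ p', ‖N p p'‖ ≤ R * lam1 (cell p))
    (hN2 : ∀ p', ∑ p, ‖N p p'‖ ≤ R * lam2 (cell p'))
    (hR : 0 ≤ R) (hV : 0 ≤ V) (Φ : κ → P → ℂ)
    (hΦ : ∀ a, ∑ t, ∑ p, (if cell p = a then ‖Φ t p‖ ^ 2 else 0) ≤ V) :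
    |∑ t, qv N (Φ t)| ≤ R * V := by
  have key : ∀ lam : Fin S → ℝ, (∀ a, 0 ≤ lam a) → ∑ a, lam a ≤ 1 →
      ∑ t, ∑ p, R * lam (cell p) * ‖Φ t p‖ ^ 2 ≤ R * V := by
    intro lam h0 hs
    have e1 : ∀ t, ∑ p, R * lam (cell p) * ‖Φ t p‖ ^ 2 =
        ∑ a : Fin S, R * lam a * ∑ p, (if cell p = a then ‖Φ t p‖ ^ 2 else 0) := by
      intro t
      simp only [mul_sum]
      rw [sum_comm]
      refine sum_congr rfl fun p _ => ?_
      rw [Finset.sum_eq_single (cell p)]
      · simp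
      · intro a _ ha
        rw [if_neg (Ne.symm ha), mul_zero]
      · simp
    simp only [e1]
    rw [sum_comm]
    calc ∑ a : Fin S, ∑ t, R * lam a * ∑ p, (if cell p = a then ‖Φ t p‖ ^ 2 else 0)
        ≤ ∑ a : Fin S, R * lam a * V := by
          refine sum_le_sum fun a _ => ?_
          rw [← mul_sum]
          exact mul_le_mul_of_nonneg_left (hΦ a) (mul_nonneg hR (h0 a))
      _ = R * V * ∑ a, lam a := by
          rw [mul_sum]
          exact sum_congr rfl fun a _ => by ring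
      _ ≤ R * V * 1 := mul_le_mul_of_nonneg_left hs (mul_nonneg hR hV)
      _ = _ := mul_one _
  have h3 : ∀ t, |qv N (Φ t)| ≤ (∑ p, R * lam1 (cell p) * ‖Φ t p‖ ^ 2 +
      ∑ p, R * lam2 (cell p) * ‖Φ t p‖ ^ 2) / 2 := by
    intro t
    unfold qv
    refine (Complex.abs_re_le_norm _).trans ((norm_sum_le _ _).trans ?_)
    have h4 : ∀ p, ‖∑ p', conj (Φ t p) * N p p' * Φ t p'‖ ≤
        ∑ p', (‖N p p'‖ * ‖Φ t p‖ ^ 2 + ‖N p p'‖ * ‖Φ t p'‖ ^ 2) / 2 := by
      intro p
      refine (norm_sum_le _ _).trans (sum_le_sum fun p' _ => ?_)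
      rw [norm_mul, norm_mul, RCLike.norm_conj]
      have := two_mul_le_add_sq ‖Φ t p‖ ‖Φ t p'‖
      have h5 := norm_nonneg (N p p')
      nlinarith
    refine (sum_le_sum fun p _ => h4 p).trans ?_
    have h5 : ∑ p, ∑ p', (‖N p p'‖ * ‖Φ t p‖ ^ 2 + ‖N p p'‖ * ‖Φ t p'‖ ^ 2) / 2 =
        (∑ p, (∑ p', ‖N p p'‖) * ‖Φ t p‖ ^ 2 + ∑ p', (∑ p, ‖N p p'‖) * ‖Φ t p'‖ ^ 2) / 2 := by
      simp only [add_div, sum_add_distrib, sum_mul, sum_div]
      congr 1
      rw [sum_comm]
    rw [h5]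
    have h6 : ∑ p, (∑ p', ‖N p p'‖) * ‖Φ t p‖ ^ 2 ≤ ∑ p, R * lam1 (cell p) * ‖Φ t p‖ ^ 2 :=
      sum_le_sum fun p _ => mul_le_mul_of_nonneg_right (hN1 p) (by positivity)
    have h7 : ∑ p', (∑ p, ‖N p p'‖) * ‖Φ t p'‖ ^ 2 ≤ ∑ p, R * lam2 (cell p) * ‖Φ t p‖ ^ 2 :=
      sum_le_sum fun p _ => mul_le_mul_of_nonneg_right (hN2 p) (by positivity)
    linarith
  refine (abs_sum_le_sum_abs _ _).trans ((sum_le_sum fun t _ => h3 t).trans ?_)
  rw [← sum_div, sum_add_distrib]
  linarith [key lam1 h1 hs1, key lam2 h2 hs2]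

end Core

end Pool.Agent.H34QM
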