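import Pool.Agent.H34QM.Val
import Pool.Agent.R563.TP.Par
import Pool.Agent.R563.TP.Sum

set_option autoImplicit false

/-!
# From the abstract estimate to 3SUM-Indexing with a quantum memory
-/

namespace Pool.Agent.H34QM

open Finset Pool.Agent.R563.TP Pool.Agent.R563.TP.SumP Pool.Agent.H34TP
open scoped Classical ComplexOrder

theorem abs_sg'' (b : Bool) : |sg b| = 1 := by unfold sg; split_ifs <;> simp

theorem sum_sg {k u : ℕ} (a : Fin k × Fin u) : ∑ Y : Fin k × Fin u → Bool, sg (Y a) = 0 := by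
  refine Finset.sum_involution (fun Y _ => Function.update Y a (!Y a)) ?_ ?_ ?_ ?_
  · intro Y _
    simp only [Function.update_self]
    unfold sg
    cases Y a <;> simp
  · intro Y _ _ h
    have := congrFun h a
    simp at this
  · intro Y _
    exact mem_univ _
  · intro Y _
    simp

/-- the average over the instances, for one data structure -/
theorem one {k u S W r m : ℕ} {δ : ℝ} (hk : 1 ≤ k) (hu : 1 ≤ u) (hS : 1 ≤ S) (hW : 1 ≤ W)
    (hr : 1 ≤ r) (hkS : k ^ 2 ≤ u * S) (hcard : 4 * (S * (W * W)) ≤ 2 ^ (2 ^ r)) (hδ : 0 < δ)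
    (hδ1 : δ ≤ 1)
    (hcon : 256 * ((W : ℝ) ^ 2) ^ 2 * (W : ℝ) ^ 2 * (2 + m) * 2 ^ r * S < δ ^ 2 * (k : ℝ) ^ 2)
    (mem : (Fin k → Fin u) → (Fin k × Fin u → Bool) → Matrix (Conf S W) (Conf S W) ℂ)
    (hmem : ∀ e Y, (mem e Y).PosSemidef ∧ (mem e Y).trace = 1)
    (Q : Fin k × Fin k → TwoProbes S W) :
    ∑ e, ∑ Y, ∑ q, sg (Y (cls e q)) * (Q q).prob (mem e Y) ≤
      (u : ℝ) ^ k * (δ * (k : ℝ) ^ 2 * 2 ^ (k * u)) +
      2 * (S * (k * u) * ((u : ℝ) ^ k * Real.exp (-m))) * ((k : ℝ) ^ 2 * 2 ^ (k * u) * W ^ 3) := by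
  have hW1 : (1 : ℝ) ≤ W := by exact_mod_cast hW
  choose κ ψ hval hnorm using fun e Y => value (mem e Y) (hmem e Y).1 (hmem e Y).2
  set B : ℝ := (k : ℝ) ^ 2 * 2 ^ (k * u) * W ^ 3 with hB
  have hB0 : 0 ≤ B := by positivity
  have hA0 : 0 ≤ δ * (k : ℝ) ^ 2 * 2 ^ (k * u) := by positivity
  -- bad `e`
  have hbad : ∀ e, ∑ Y, ∑ q, sg (Y (cls e q)) * (Q q).prob (mem e Y) ≤ B := by
    intro e
    have h1 : ∀ Y q, sg (Y (cls e q)) * (Q q).prob (mem e Y) ≤ (W : ℝ) ^ 3 := by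
      intro Y q
      refine (le_abs_self _).trans ?_
      rw [abs_mul, abs_sg'', one_mul, hval]
      have h2 := triv (N := NQ (Q q)) (cell := fun p : PP S W => p.1) (R := (W : ℝ) ^ 2)
        (V := W) (L1_nonneg (Q q)) (L2_nonneg (Q q)) (sum_L1 _) (sum_L2 hW _) (row_bound _)
        (col_bound hW _) (by positivity) (by positivity)
        (fun t : Fin (κ e Y) × Conf S W => PhiQ (ψ e Y t.1) t.2) (hnorm e Y)
      refine h2.trans (le_of_eq ?_)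
      ring
    refine (sum_le_sum fun Y _ => sum_le_sum fun q _ => h1 Y q).trans (le_of_eq ?_)
    simp only [sum_const, card_univ, Fintype.card_prod, Fintype.card_fun, Fintype.card_fin,
      Fintype.card_bool, nsmul_eq_mul]
    push_cast
    rw [hB]
    ring
  -- good `e`
  have hgood : ∀ e, GoodL (fun q => L1 (Q q)) m e → GoodL (fun q => L2 (Q q)) m e →
      ∑ Y, ∑ q, sg (Y (cls e q)) * (Q q).prob (mem e Y) ≤ δ * (k : ℝ) ^ 2 * 2 ^ (k * u) := by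
    intro e hg1 hg2
    by_contra hc
    rw [not_le] at hc
    refine absurd hcon (not_lt.2 ?_)
    refine coreQ (lam1 := fun q => L1 (Q q)) (lam2 := fun q => L2 (Q q))
      (N := fun q => NQ (Q q)) (cell := fun p : PP S W => p.1) (R := (W : ℝ) ^ 2) (V := (W : ℝ))
      (κ := fun Y => Fin (κ e Y) × Conf S W) (u := u)
      (fun q => L1_nonneg (Q q)) (fun q => L2_nonneg (Q q)) (fun q => sum_L1 _)
      (fun q => sum_L2 hW _) (fun q => row_bound _)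
      (fun q => col_bound hW _) (one_le_pow₀ hW1) hW1 hk hu hS hr hkS ?_ hδ hδ1 e hg1 hg2
      (fun Y t => PhiQ (ψ e Y t.1) t.2) (fun Y a => hnorm e Y a) ?_
    · rw [Fintype.card_prod, Fintype.card_prod, Fintype.card_fin, Fintype.card_fin]
      exact hcard
    · refine hc.le.trans (le_of_eq ?_)
      refine sum_congr rfl fun Y _ => sum_congr rfl fun q _ => ?_
      rw [hval]
  -- all `e`
  have hall : ∀ e, ∑ Y, ∑ q, sg (Y (cls e q)) * (Q q).prob (mem e Y) ≤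
      δ * (k : ℝ) ^ 2 * 2 ^ (k * u) + ((if ¬ GoodL (fun q => L1 (Q q)) m e then B else 0) +
        (if ¬ GoodL (fun q => L2 (Q q)) m e then B else 0)) := by
    intro e
    by_cases h1 : GoodL (fun q => L1 (Q q)) m e
    · by_cases h2 : GoodL (fun q => L2 (Q q)) m e
      · have := hgood e h1 h2
        rw [if_neg (not_not.2 h1), if_neg (not_not.2 h2)]
        linarith
      · have := hbad e
        rw [if_neg (not_not.2 h1), if_pos h2]
        linarith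
    · have := hbad e
      rw [if_pos h1]
      split_ifs <;> linarith
  have hc1 := bad_all' hu (lam := fun q => L1 (Q q)) (fun q => L1_nonneg _)
    (fun q a => (single_le_sum (fun a _ => L1_nonneg (Q q) a) (mem_univ a)).trans (sum_L1 _)) m
  have hc2 := bad_all' hu (lam := fun q => L2 (Q q)) (fun q => L2_nonneg _)
    (fun q a => (single_le_sum (fun a _ => L2_nonneg (Q q) a) (mem_univ a)).trans (sum_L2 hW _)) m
  refine (sum_le_sum fun e _ => hall e).trans ?_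
  rw [sum_add_distrib, sum_add_distrib, ← sum_filter, ← sum_filter]
  simp only [sum_const, nsmul_eq_mul, card_univ, Fintype.card_fun, Fintype.card_fin]
  push_cast
  have h5 := mul_le_mul_of_nonneg_right hc1 hB0
  have h6 := mul_le_mul_of_nonneg_right hc2 hB0
  linarith

/-- choice of the parameters -/
theorem params' (N S W : ℕ) (δ : ℝ) (hN : 2 ≤ N) (hS : 1 ≤ S) (hW : 1 ≤ W) (hδ : 0 < δ)
    (hδ2 : δ ≤ 1 / 2)
    (h : 10 ^ 17 * (S : ℝ) * (W : ℝ) ^ 18 * (Real.logb 2 (N / δ)) ^ 6 < δ ^ 6 * (N : ℝ) ^ 2) :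
    ∃ k u m r : ℕ, 1 ≤ k ∧ 1 ≤ u ∧ k * (u + 1) ≤ N ∧ k ^ 2 ≤ u * S ∧
      4 * (S * (W * W)) ≤ 2 ^ (2 ^ r) ∧ 1 ≤ r ∧
      8 * (S : ℝ) * k * u * W ^ 3 * Real.exp (-m) ≤ δ ∧ (N : ℝ) * S < 16 * (k : ℝ) ^ 3 ∧
      (2 + (m : ℝ)) * 2 ^ r ≤ 54 * (Real.logb 2 (N / δ)) ^ 2 := by
  have hW1 : (1 : ℝ) ≤ W := by exact_mod_cast hW
  have hS1 : (1 : ℝ) ≤ S := by exact_mod_cast hS
  have hN2 : (2 : ℝ) ≤ N := by exact_mod_cast hN
  have hw0 : 1 ≤ W ^ 3 := Nat.one_le_pow _ _ hW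
  set L := Real.logb 2 (N / δ) with hL
  have hLpos : 0 ≤ L ^ 6 := by positivity
  have hcond : 10 ^ 13 * (S : ℝ) * ((2 * W ^ 3 : ℕ) : ℝ) ^ 6 * L ^ 6 < δ ^ 6 * (N : ℝ) ^ 2 := by
    refine lt_of_le_of_lt ?_ h
    push_cast
    have h1 : (0 : ℝ) ≤ (S : ℝ) * (W : ℝ) ^ 18 * L ^ 6 := by positivity
    have h2 : 10 ^ 13 * (S : ℝ) * (2 * (W : ℝ) ^ 3) ^ 6 * L ^ 6 =
        10 ^ 13 * 64 * ((S : ℝ) * (W : ℝ) ^ 18 * L ^ 6) := by ring
    rw [h2]
    nlinarith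
  obtain ⟨k, u, m, r, hk, hu, hku, hkS, hSW, hr, hm, hNS, hmr⟩ :=
    ParAux.params N S (2 * W ^ 3) δ hN hS (by omega) hδ hδ2 hcond
  refine ⟨k, u, 2 * m, r, hk, hu, hku, hkS, ?_, hr, ?_, hNS, ?_⟩
  · refine le_trans ?_ hSW
    have h1 : W * W ≤ W ^ 3 := by
      calc W * W = W ^ 2 := by ring
        _ ≤ W ^ 3 := Nat.pow_le_pow_right hW (by norm_num)
    nlinarith
  · have hk0 : (1 : ℝ) ≤ k := by exact_mod_cast hk
    have hu0 : (1 : ℝ) ≤ u := by exact_mod_cast hu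
    -- N is large
    have hN32 : (32 : ℝ) ≤ N := by
      have h4 : (4 : ℝ) ≤ N / δ := by
        rw [le_div_iff₀ hδ]; nlinarith
      have hL2 : 2 ≤ L := by
        rw [hL, Real.le_logb_iff_rpow_le (by norm_num) (by positivity)]
        have : (2 : ℝ) ^ (2 : ℝ) = 4 := by
          rw [show (2 : ℝ) = ((2 : ℕ) : ℝ) by norm_num, Real.rpow_natCast]; norm_num
        rw [this]
        exact h4
      have hL6 : (1 : ℝ) ≤ L ^ 6 := one_le_pow₀ (by linarith)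
      have hW18 : (1 : ℝ) ≤ (W : ℝ) ^ 18 := one_le_pow₀ hW1
      have hδ6 : δ ^ 6 ≤ 1 := pow_le_one₀ hδ.le (by linarith)
      have h5 : (10 : ℝ) ^ 17 ≤ 10 ^ 17 * (S : ℝ) * (W : ℝ) ^ 18 * L ^ 6 := by
        have h6 : (1 : ℝ) ≤ (S : ℝ) * (W : ℝ) ^ 18 := one_le_mul_of_one_le_of_one_le hS1 hW18
        have h7 : (1 : ℝ) ≤ (S : ℝ) * (W : ℝ) ^ 18 * L ^ 6 := one_le_mul_of_one_le_of_one_le h6 hL6
        calc (10 : ℝ) ^ 17 = 10 ^ 17 * 1 := by ring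
          _ ≤ 10 ^ 17 * ((S : ℝ) * (W : ℝ) ^ 18 * L ^ 6) := by gcongr
          _ = _ := by ring
      have h8 : δ ^ 6 * (N : ℝ) ^ 2 ≤ (N : ℝ) ^ 2 := by
        calc δ ^ 6 * (N : ℝ) ^ 2 ≤ 1 * (N : ℝ) ^ 2 := by gcongr
          _ = _ := one_mul _
      by_contra hcon
      rw [not_le] at hcon
      nlinarith
    -- the exponential
    have hexp : Real.exp (-((2 * m : ℕ) : ℝ)) ≤ 1 / (2 ^ m) ^ 2 := by
      rw [Real.exp_neg, ← one_div]
      refine one_div_le_one_div_of_le (by positivity) ?_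
      have h1 : (2 : ℝ) ≤ Real.exp 1 := by
        have := Real.add_one_le_exp (1 : ℝ)
        linarith
      have h2 : Real.exp ((2 * m : ℕ) : ℝ) = Real.exp 1 ^ (2 * m) := by
        rw [← Real.exp_nat_mul, mul_one]
      rw [h2, ← pow_mul, mul_comm m 2]
      gcongr
    -- `S ≤ k ^ 3 / 2`
    have hSk : 2 * (S : ℝ) ≤ (k : ℝ) ^ 3 := by
      have h1 : 32 * (S : ℝ) ≤ (N : ℝ) * S := by gcongr
      linarith
    set X : ℝ := (k : ℝ) ^ 2 * (((2 * W ^ 3 : ℕ) : ℝ) + 1) * u with hX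
    have hX1 : (k : ℝ) ^ 2 * (2 * W ^ 3) * u ≤ X := by
      rw [hX]
      push_cast
      gcongr
      linarith
    have hX0 : 0 < (k : ℝ) ^ 2 * (2 * W ^ 3) * u := by positivity
    have h2m : (0 : ℝ) < 2 ^ m := by positivity
    have h3 : (k : ℝ) ^ 2 * (2 * W ^ 3) * u ≤ δ * 2 ^ m := hX1.trans hm
    have h4 : ((k : ℝ) ^ 2 * (2 * W ^ 3) * u) ^ 2 ≤ (δ * 2 ^ m) ^ 2 := by gcongr
    have h5 : 8 * (S : ℝ) * k * u * W ^ 3 ≤ ((k : ℝ) ^ 2 * (2 * W ^ 3) * u) ^ 2 := by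
      have hW3 : (1 : ℝ) ≤ (W : ℝ) ^ 3 := one_le_pow₀ hW1
      calc 8 * (S : ℝ) * k * u * W ^ 3 = 4 * (2 * S) * k * u * W ^ 3 := by ring
        _ ≤ 4 * (k : ℝ) ^ 3 * k * u * W ^ 3 := by gcongr
        _ = 4 * (k : ℝ) ^ 4 * (u * W ^ 3) * 1 := by ring
        _ ≤ 4 * (k : ℝ) ^ 4 * (u * W ^ 3) * (u * W ^ 3) := by
            have h6 : (1 : ℝ) ≤ u * (W : ℝ) ^ 3 := one_le_mul_of_one_le_of_one_le hu0 hW3
            have h7 : (0 : ℝ) ≤ 4 * (k : ℝ) ^ 4 * (u * W ^ 3) := by positivity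
            exact mul_le_mul_of_nonneg_left h6 h7
        _ = _ := by ring
    calc 8 * (S : ℝ) * k * u * W ^ 3 * Real.exp (-((2 * m : ℕ) : ℝ)) ≤
        8 * (S : ℝ) * k * u * W ^ 3 * (1 / (2 ^ m) ^ 2) := by gcongr
      _ ≤ (δ * 2 ^ m) ^ 2 * (1 / (2 ^ m) ^ 2) := by
          have := h5.trans h4
          gcongr
      _ = δ ^ 2 := by field_simp
      _ ≤ δ := by nlinarith
  · push_cast
    calc (2 + 2 * (m : ℝ)) * 2 ^ r ≤ (2 * (2 + (m : ℝ))) * 2 ^ r := by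
          gcongr
          linarith
      _ = 2 * ((2 + (m : ℝ)) * 2 ^ r) := by ring
      _ ≤ 2 * (27 * L ^ 2) := by gcongr
      _ = _ := by ring

theorem main (N S W : ℕ) (δ : ℝ) (hN : 2 ≤ N) (hS : 1 ≤ S) (hW : 1 ≤ W) (hδ : 0 < δ)
    (hδ2 : δ ≤ 1 / 2) (Ω : Type) [Fintype Ω] (p : Ω → ℝ) (D : Ω → QuantumDS N S W)
    (hD : QSolves p D δ) :
    δ ^ 6 * (N : ℝ) ^ 2 ≤ 10 ^ 17 * (S : ℝ) * (W : ℝ) ^ 18 * (Real.logb 2 (N / δ)) ^ 6 := by
  by_contra hcon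
  rw [not_le] at hcon
  obtain ⟨k, u, m, r, hk, hu, hku, hkS, hSW, hr, hm, hNS, hmr⟩ :=
    params' N S W δ hN hS hW hδ hδ2 hcon
  obtain ⟨hp0, hp1, hgood⟩ := hD
  set L := Real.logb 2 (N / δ) with hL
  have hW1 : (1 : ℝ) ≤ W := by exact_mod_cast hW
  have hS1 : (1 : ℝ) ≤ S := by exact_mod_cast hS
  have hk0 : (1 : ℝ) ≤ k := by exact_mod_cast hk
  have hu0 : (1 : ℝ) ≤ u := by exact_mod_cast hu
  -- the estimate fails
  have hcon2 : 256 * ((W : ℝ) ^ 2) ^ 2 * (W : ℝ) ^ 2 * (2 + m) * 2 ^ r * S <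
      (δ / 2) ^ 2 * (k : ℝ) ^ 2 := by
    by_contra hc
    rw [not_lt] at hc
    have f1 : δ ^ 2 * (k : ℝ) ^ 2 ≤ 55296 * (W : ℝ) ^ 6 * L ^ 2 * S := by
      calc δ ^ 2 * (k : ℝ) ^ 2 = 4 * ((δ / 2) ^ 2 * (k : ℝ) ^ 2) := by ring
        _ ≤ 4 * (256 * ((W : ℝ) ^ 2) ^ 2 * (W : ℝ) ^ 2 * (2 + m) * 2 ^ r * S) := by gcongr
        _ = 1024 * (W : ℝ) ^ 6 * ((2 + m) * 2 ^ r) * S := by ring
        _ ≤ 1024 * (W : ℝ) ^ 6 * (54 * L ^ 2) * S := by gcongr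
        _ = _ := by ring
    have f2 : (δ ^ 2 * (k : ℝ) ^ 2) ^ 3 ≤ (55296 * (W : ℝ) ^ 6 * L ^ 2 * S) ^ 3 := by gcongr
    have f3 : ((N : ℝ) * S) ^ 2 ≤ (16 * (k : ℝ) ^ 3) ^ 2 := by gcongr
    have f4 : δ ^ 6 * (N : ℝ) ^ 2 * (S : ℝ) ^ 2 ≤
        (256 * 55296 ^ 3 * (S : ℝ) * (W : ℝ) ^ 18 * L ^ 6) * (S : ℝ) ^ 2 := by
      calc δ ^ 6 * (N : ℝ) ^ 2 * (S : ℝ) ^ 2 = δ ^ 6 * ((N : ℝ) * S) ^ 2 := by ring
        _ ≤ δ ^ 6 * (16 * (k : ℝ) ^ 3) ^ 2 := by gcongr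
        _ = 256 * (δ ^ 2 * (k : ℝ) ^ 2) ^ 3 := by ring
        _ ≤ 256 * (55296 * (W : ℝ) ^ 6 * L ^ 2 * S) ^ 3 := by gcongr
        _ = _ := by ring
    have f5 : δ ^ 6 * (N : ℝ) ^ 2 ≤ 256 * 55296 ^ 3 * (S : ℝ) * (W : ℝ) ^ 18 * L ^ 6 :=
      le_of_mul_le_mul_right f4 (by positivity)
    have f6 : 256 * 55296 ^ 3 * (S : ℝ) * (W : ℝ) ^ 18 * L ^ 6 ≤
        10 ^ 17 * (S : ℝ) * (W : ℝ) ^ 18 * L ^ 6 := by
      have g1 : (0 : ℝ) ≤ (S : ℝ) * (W : ℝ) ^ 18 * L ^ 6 := by positivity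
      nlinarith
    linarith
  -- the instances
  let A2 : (Fin k × Fin u → Bool) → Fin k → Fin u → Bool := fun Y j c => Y (j, c)
  set E : ℝ := (u : ℝ) ^ k * ((k : ℝ) ^ 2 * 2 ^ (k * u)) with hE
  have hE0 : 0 < E := by positivity
  have hb : ∀ ω : Ω, ∑ e : Fin k → Fin u, ∑ Y : Fin k × Fin u → Bool, ∑ q : Fin k × Fin k,
      sg (Y (cls e q)) * (((D ω).query (qz k u q.1 q.2)).prob
        ((D ω).memory (arr1 N k u e) (arr2 N k u (A2 Y))) - 1 / 2) ≤ 3 / 4 * δ * E := by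
    intro ω
    have h1 := one (r := r) (m := m) (δ := δ / 2) hk hu hS hW hr hkS hSW (by linarith)
      (by linarith) hcon2 (fun e Y => (D ω).memory (arr1 N k u e) (arr2 N k u (A2 Y)))
      (fun e Y => (D ω).state _ _) (fun q => (D ω).query (qz k u q.1 q.2))
    have h2 : ∑ e : Fin k → Fin u, ∑ Y : Fin k × Fin u → Bool, ∑ q : Fin k × Fin k,
        sg (Y (cls e q)) * (((D ω).query (qz k u q.1 q.2)).prob
          ((D ω).memory (arr1 N k u e) (arr2 N k u (A2 Y))) - 1 / 2) =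
        ∑ e : Fin k → Fin u, ∑ Y : Fin k × Fin u → Bool, ∑ q : Fin k × Fin k,
        sg (Y (cls e q)) * ((D ω).query (qz k u q.1 q.2)).prob
          ((D ω).memory (arr1 N k u e) (arr2 N k u (A2 Y))) := by
      refine sum_congr rfl fun e _ => ?_
      have h3 : ∑ Y : Fin k × Fin u → Bool, ∑ q : Fin k × Fin k, sg (Y (cls e q)) * (1 / 2) = 0 := by
        rw [sum_comm]
        refine sum_eq_zero fun q _ => ?_
        rw [← sum_mul, sum_sg, zero_mul]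
      simp only [mul_sub, sum_sub_distrib]
      rw [h3, sub_zero]
    rw [h2]
    refine h1.trans ?_
    have h4 : 2 * (S * (k * u) * ((u : ℝ) ^ k * Real.exp (-m))) *
        ((k : ℝ) ^ 2 * 2 ^ (k * u) * W ^ 3) =
        1 / 4 * (8 * (S : ℝ) * k * u * W ^ 3 * Real.exp (-m)) * E := by
      rw [hE]; ring
    have h5 : 1 / 4 * (8 * (S : ℝ) * k * u * W ^ 3 * Real.exp (-m)) * E ≤ 1 / 4 * δ * E := by
      gcongr
    rw [h4]
    have h6 : (u : ℝ) ^ k * (δ / 2 * (k : ℝ) ^ 2 * 2 ^ (k * u)) = 1 / 2 * δ * E := by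
      rw [hE]; ring
    rw [h6]
    linarith
  have hlow : ∀ (e : Fin k → Fin u) (Y : Fin k × Fin u → Bool) (q : Fin k × Fin k),
      δ ≤ ∑ ω, p ω * (sg (Y (cls e q)) * (((D ω).query (qz k u q.1 q.2)).prob
        ((D ω).memory (arr1 N k u e) (arr2 N k u (A2 Y))) - 1 / 2)) := by
    intro e Y q
    have h1 := hgood (arr1 N k u e) (arr2 N k u (A2 Y)) (arr1_le hk hu hku e)
      (arr2_le hk hu hku _) (qz k u q.1 q.2)
    have h2 : ∀ ω, (D ω).right (arr1 N k u e) (arr2 N k u (A2 Y)) (qz k u q.1 q.2) - 1 / 2 =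
        sg (Y (cls e q)) * (((D ω).query (qz k u q.1 q.2)).prob
        ((D ω).memory (arr1 N k u e) (arr2 N k u (A2 Y))) - 1 / 2) := by
      intro ω
      unfold QuantumDS.right
      have h3 := sum_iff hk hu hku e (A2 Y) q.1 q.2
      have h4 : A2 Y q.2 (e q.1) = Y (cls e q) := rfl
      rw [h4] at h3
      by_cases h5 : Y (cls e q) = true
      · rw [if_pos (h3.2 h5), h5]
        unfold sg
        simp
      · rw [if_neg (fun h => h5 (h3.1 h))]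
        have h6 : Y (cls e q) = false := by simpa using h5
        rw [h6]
        unfold sg
        simp
        ring
    have h7 : ∑ ω, p ω * (sg (Y (cls e q)) * (((D ω).query (qz k u q.1 q.2)).prob
        ((D ω).memory (arr1 N k u e) (arr2 N k u (A2 Y))) - 1 / 2)) =
        ∑ ω, p ω * (D ω).right (arr1 N k u e) (arr2 N k u (A2 Y)) (qz k u q.1 q.2) - 1 / 2 := by
      have h8 : (1 / 2 : ℝ) = ∑ ω, p ω * (1 / 2) := by
        rw [← sum_mul, hp1, one_mul]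
      rw [h8, ← sum_sub_distrib]
      refine sum_congr rfl fun ω _ => ?_
      have h9 := h2 ω
      simp only [← h8]
      rw [← h9]
      ring
    rw [h7]
    linarith
  have hsum : ∑ ω, p ω * (∑ e : Fin k → Fin u, ∑ Y : Fin k × Fin u → Bool, ∑ q : Fin k × Fin k,
      sg (Y (cls e q)) * (((D ω).query (qz k u q.1 q.2)).prob
        ((D ω).memory (arr1 N k u e) (arr2 N k u (A2 Y))) - 1 / 2)) =
      ∑ e : Fin k → Fin u, ∑ Y : Fin k × Fin u → Bool, ∑ q : Fin k × Fin k, ∑ ω,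
      p ω * (sg (Y (cls e q)) * (((D ω).query (qz k u q.1 q.2)).prob
        ((D ω).memory (arr1 N k u e) (arr2 N k u (A2 Y))) - 1 / 2)) := by
    simp only [mul_sum]
    rw [sum_comm]
    refine sum_congr rfl fun e _ => ?_
    rw [sum_comm]
    refine sum_congr rfl fun Y _ => ?_
    rw [sum_comm]
  have hup : ∑ ω, p ω * (∑ e : Fin k → Fin u, ∑ Y : Fin k × Fin u → Bool, ∑ q : Fin k × Fin k,
      sg (Y (cls e q)) * (((D ω).query (qz k u q.1 q.2)).prob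
        ((D ω).memory (arr1 N k u e) (arr2 N k u (A2 Y))) - 1 / 2)) ≤ 3 / 4 * δ * E := by
    calc _ ≤ ∑ ω, p ω * (3 / 4 * δ * E) :=
          sum_le_sum fun ω _ => mul_le_mul_of_nonneg_left (hb ω) (hp0 ω)
      _ = _ := by rw [← sum_mul, hp1, one_mul]
  have hlo : δ * E ≤
      ∑ e : Fin k → Fin u, ∑ Y : Fin k × Fin u → Bool, ∑ q : Fin k × Fin k, ∑ ω,
      p ω * (sg (Y (cls e q)) * (((D ω).query (qz k u q.1 q.2)).prob
        ((D ω).memory (arr1 N k u e) (arr2 N k u (A2 Y))) - 1 / 2)) := by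
    calc δ * E = ∑ e : Fin k → Fin u, ∑ Y : Fin k × Fin u → Bool, ∑ q : Fin k × Fin k, δ := by
          simp only [sum_const, card_univ, Fintype.card_prod, Fintype.card_fun, Fintype.card_fin,
            Fintype.card_bool, nsmul_eq_mul]
          push_cast
          rw [hE]
          ring
      _ ≤ _ := sum_le_sum fun e _ => sum_le_sum fun Y _ => sum_le_sum fun q _ => hlow e Y q
  rw [hsum] at hup
  have h9 : 0 < δ * E := by positivity
  linarith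

end Pool.Agent.H34QM
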