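import Pool.Agent.H34QM.Ham

set_option autoImplicit false

/-!
# The value of a query as a quadratic form: the matrix, the vectors, the loads
-/

namespace Pool.Agent.H34QM

open Finset Matrix
open scoped Classical ComplexConjugate ComplexOrder

variable {S W : ℕ}

/-- the sum of the squares of a column -/
noncomputable def col (A : Matrix (Fin W) (Fin W) ℂ) (i : Fin W) : ℝ := ∑ s, ‖A s i‖ ^ 2

theorem col_nonneg (A : Matrix (Fin W) (Fin W) ℂ) (i : Fin W) : 0 ≤ col A i :=
  sum_nonneg fun _ _ => by positivity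

theorem amp_col (A : Matrix (Fin W) (Fin W) ℂ) (p : Fin W × Fin W) :
    ∑ x, ‖amp A x p‖ ^ 2 = col A p.1 := by
  rw [Fintype.sum_prod_type]
  unfold col amp
  refine sum_congr rfl fun s _ => ?_
  rw [Finset.sum_eq_single p.2]
  · simp
  · intro t _ ht
    simp [ht]
  · simp

theorem eff_entry {F : Matrix (Fin W × Fin W) (Fin W × Fin W) ℂ} (hF : F.PosSemidef)
    (hF1 : (1 - F).PosSemidef) (A : Matrix (Fin W) (Fin W) ℂ) (p p' : Fin W × Fin W) :
    ‖eff A F p p'‖ ≤ (col A p.1 + col A p'.1) / 2 := by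
  have h := quad_bound hF hF1 (fun x => amp A x p) (fun x => amp A x p')
  rw [amp_col, amp_col] at h
  refine le_trans (le_of_eq ?_) h
  congr 1
  unfold eff
  rw [Matrix.mul_apply]
  simp only [Matrix.mul_apply, Matrix.conjTranspose_apply, sum_mul]
  rw [sum_comm]
  rfl

theorem sum_col (Q : TwoProbes S W) (i : Fin W) : ∑ v, col (Q.K v) i = 1 := by
  have h := congrFun (congrFun Q.complete i) i
  rw [Matrix.sum_apply, Matrix.one_apply_eq] at h
  have h1 : ∀ v, ((Q.K v)ᴴ * Q.K v) i i = ((col (Q.K v) i : ℝ) : ℂ) := by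
    intro v
    rw [Matrix.mul_apply]
    unfold col
    push_cast
    refine sum_congr rfl fun s _ => ?_
    rw [Matrix.conjTranspose_apply, mul_comm]
    have := Complex.mul_conj (Q.K v s i)
    rw [Complex.normSq_eq_norm_sq] at this
    push_cast at this
    exact this
  simp only [h1] at h
  exact_mod_cast h

/-- the cells with two contents -/
abbrev PP (S W : ℕ) : Type := Fin S × Fin W × Fin W

/-- the matrix of a query -/
noncomputable def NQ (Q : TwoProbes S W) : PP S W → PP S W → ℂ :=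
  fun p p' => ∑ v, if p.1 = Q.first ∧ p'.1 = Q.second v then
    eff (Q.K v) (Q.F v) (p.2.2, p'.2.1) (p.2.1, p'.2.2) else 0

/-- the vectors of a state -/
noncomputable def PhiQ (ψ : Conf S W → ℂ) (z : Conf S W) : PP S W → ℂ :=
  fun p => if z p.1 = p.2.1 then ψ (Function.update z p.1 p.2.2) else 0

/-- the loads of the first probe -/
noncomputable def L1 (Q : TwoProbes S W) (c : Fin S) : ℝ := if Q.first = c then 1 else 0

/-- the loads of the second probe -/
noncomputable def L2 (Q : TwoProbes S W) (c : Fin S) : ℝ :=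
  (∑ v, if Q.second v = c then ∑ i, col (Q.K v) i else 0) / W

theorem L1_nonneg (Q : TwoProbes S W) (c : Fin S) : 0 ≤ L1 Q c := by
  unfold L1; split_ifs <;> norm_num

theorem L2_nonneg (Q : TwoProbes S W) (c : Fin S) : 0 ≤ L2 Q c := by
  unfold L2
  refine div_nonneg (sum_nonneg fun v _ => ?_) (Nat.cast_nonneg _)
  split_ifs
  · exact sum_nonneg fun i _ => col_nonneg _ _
  · exact le_rfl

theorem sum_L1 (Q : TwoProbes S W) : ∑ c, L1 Q c ≤ 1 := by
  unfold L1; simp

theorem sum_L2 (hW : 1 ≤ W) (Q : TwoProbes S W) : ∑ c, L2 Q c ≤ 1 := by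
  have hW0 : (0 : ℝ) < W := by exact_mod_cast hW
  unfold L2
  rw [← sum_div, sum_comm]
  have h1 : ∀ v, ∑ c, (if Q.second v = c then ∑ i, col (Q.K v) i else 0) =
      ∑ i, col (Q.K v) i := fun v => by simp
  simp only [h1]
  rw [sum_comm]
  simp only [sum_col, sum_const, card_univ, Fintype.card_fin, nsmul_eq_mul, mul_one]
  rw [div_self hW0.ne']

/-- the bound of an entry -/
theorem entry (Q : TwoProbes S W) (v : Fin Q.outcomes) (i i' j j' : Fin W) :
    ‖eff (Q.K v) (Q.F v) (i, j') (i', j)‖ ≤ (col (Q.K v) i + col (Q.K v) i') / 2 :=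
  eff_entry (Q.effect v).1 (Q.effect v).2 _ _ _

theorem row_bound (Q : TwoProbes S W) (p : PP S W) :
    ∑ p', ‖NQ Q p p'‖ ≤ (W : ℝ) ^ 2 * L1 Q p.1 := by
  obtain ⟨c, i0, i⟩ := p
  unfold L1
  by_cases h : Q.first = c
  · subst h
    rw [if_pos rfl, mul_one]
    calc ∑ p', ‖NQ Q (Q.first, i0, i) p'‖ ≤
        ∑ p' : PP S W, ∑ v, (if p'.1 = Q.second v then (col (Q.K v) i + col (Q.K v) i0) / 2
          else 0) := by
          refine sum_le_sum fun p' _ => ?_
          unfold NQ
          refine (norm_sum_le _ _).trans (sum_le_sum fun v _ => ?_)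
          by_cases h1 : p'.1 = Q.second v
          · rw [if_pos ⟨rfl, h1⟩, if_pos h1]
            exact entry Q v _ _ _ _
          · rw [if_neg (fun h2 => h1 h2.2), if_neg h1, norm_zero]
      _ = ∑ v, (W : ℝ) ^ 2 * ((col (Q.K v) i + col (Q.K v) i0) / 2) := by
          rw [sum_comm]
          refine sum_congr rfl fun v _ => ?_
          rw [Fintype.sum_prod_type, Finset.sum_eq_single (Q.second v)]
          · simp only [if_true, sum_const, card_univ, Fintype.card_prod, Fintype.card_fin,
              nsmul_eq_mul]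
            push_cast
            ring
          · intro c _ hc
            simp [hc]
          · simp
      _ = (W : ℝ) ^ 2 := by
          rw [← mul_sum, ← sum_div, sum_add_distrib, sum_col, sum_col]
          norm_num
  · rw [if_neg h, mul_zero]
    refine le_of_eq (sum_eq_zero fun p' _ => ?_)
    unfold NQ
    rw [norm_eq_zero]
    refine sum_eq_zero fun v _ => ?_
    rw [if_neg]
    exact fun h2 => h h2.1.symm

theorem col_bound (hW : 1 ≤ W) (Q : TwoProbes S W) (p' : PP S W) :
    ∑ p, ‖NQ Q p p'‖ ≤ (W : ℝ) ^ 2 * L2 Q p'.1 := by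
  have hW0 : (0 : ℝ) < W := by exact_mod_cast hW
  obtain ⟨c, j0, j⟩ := p'
  calc ∑ p, ‖NQ Q p (c, j0, j)‖ ≤
      ∑ p : PP S W, ∑ v, (if p.1 = Q.first then (if Q.second v = c then
        (col (Q.K v) p.2.2 + col (Q.K v) p.2.1) / 2 else 0) else 0) := by
        refine sum_le_sum fun p _ => ?_
        unfold NQ
        refine (norm_sum_le _ _).trans (sum_le_sum fun v _ => ?_)
        by_cases h1 : p.1 = Q.first
        · by_cases h2 : c = Q.second v
          · rw [if_pos ⟨h1, h2⟩, if_pos h1, if_pos h2.symm]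
            exact entry Q v _ _ _ _
          · rw [if_neg (fun h3 => h2 h3.2), if_pos h1, if_neg (fun h3 => h2 h3.symm), norm_zero]
        · rw [if_neg (fun h3 => h1 h3.1), if_neg h1, norm_zero]
    _ = ∑ v, (if Q.second v = c then (W : ℝ) * ∑ i, col (Q.K v) i else 0) := by
        rw [sum_comm]
        refine sum_congr rfl fun v _ => ?_
        rw [Fintype.sum_prod_type, Finset.sum_eq_single Q.first]
        · rw [Fintype.sum_prod_type]
          by_cases h2 : Q.second v = c
          · simp only [if_true, if_pos h2, ← sum_div, sum_add_distrib, sum_const, card_univ,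
              Fintype.card_fin, nsmul_eq_mul, ← mul_sum]
            ring
          · simp [if_neg h2]
        · intro c _ hc
          simp [hc]
        · simp
    _ = _ := by
        unfold L2
        have h1 : ∀ v, (if Q.second v = c then (W : ℝ) * ∑ i, col (Q.K v) i else 0) =
            W * (if Q.second v = c then ∑ i, col (Q.K v) i else 0) := by
          intro v
          rw [mul_ite, mul_zero]
        simp only [h1]
        rw [← mul_sum]
        field_simp

/-- a sum over the contents of one cell -/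
theorem sum_cell {G : Type} [AddCommMonoid G] (a : Fin S) (f : PP S W → G) :
    ∑ p, (if p.1 = a then f p else 0) = ∑ i0, ∑ i, f (a, i0, i) := by
  rw [Fintype.sum_prod_type, Finset.sum_eq_single a]
  · rw [Fintype.sum_prod_type]
    simp
  · intro c _ hc
    simp [hc]
  · simp

theorem one_pair (G : Matrix (Fin W × Fin W) (Fin W × Fin W) ℂ) {a b : Fin S} (ψ : Conf S W → ℂ)
    (z : Conf S W) :
    ∑ p : PP S W, ∑ p' : PP S W, conj (PhiQ ψ z p) * (if p.1 = a ∧ p'.1 = b then
      G (p.2.2, p'.2.1) (p.2.1, p'.2.2) else 0) * PhiQ ψ z p' =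
      ∑ i, ∑ j, conj (ψ (Function.update z a i)) * G (i, z b) (z a, j) *
        ψ (Function.update z b j) := by
  have h1 : ∀ p : PP S W, ∑ p' : PP S W, conj (PhiQ ψ z p) * (if p.1 = a ∧ p'.1 = b then
      G (p.2.2, p'.2.1) (p.2.1, p'.2.2) else 0) * PhiQ ψ z p' =
      if p.1 = a then ∑ j, conj (PhiQ ψ z p) * G (p.2.2, z b) (p.2.1, j) *
        ψ (Function.update z b j) else 0 := by
    intro p
    by_cases hp : p.1 = a
    · rw [if_pos hp]
      have h2 : ∀ p' : PP S W, conj (PhiQ ψ z p) * (if p.1 = a ∧ p'.1 = b then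
          G (p.2.2, p'.2.1) (p.2.1, p'.2.2) else 0) * PhiQ ψ z p' =
          if p'.1 = b then conj (PhiQ ψ z p) * G (p.2.2, p'.2.1) (p.2.1, p'.2.2) * PhiQ ψ z p'
          else 0 := by
        intro p'
        by_cases hp' : p'.1 = b
        · rw [if_pos ⟨hp, hp'⟩, if_pos hp']
        · rw [if_neg (fun h => hp' h.2), if_neg hp', mul_zero, zero_mul]
      simp only [h2]
      rw [sum_cell, Finset.sum_eq_single (z b)]
      · refine sum_congr rfl fun j _ => ?_
        congr 1
        unfold PhiQ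
        rw [if_pos rfl]
      · intro j0 _ hj
        refine sum_eq_zero fun j _ => ?_
        unfold PhiQ
        rw [if_neg (fun h => hj (Eq.symm h)) , mul_zero]
      · simp
    · rw [if_neg hp]
      refine sum_eq_zero fun p' _ => ?_
      rw [if_neg (fun h => hp h.1), mul_zero, zero_mul]
  simp only [h1]
  rw [sum_cell, Finset.sum_eq_single (z a)]
  · refine sum_congr rfl fun i _ => sum_congr rfl fun j _ => ?_
    congr 3
    unfold PhiQ
    rw [if_pos rfl]
  · intro i0 _ hi
    refine sum_eq_zero fun i _ => sum_eq_zero fun j _ => ?_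
    unfold PhiQ
    rw [if_neg (fun h => hi (Eq.symm h)), map_zero, zero_mul, zero_mul]
  · simp

theorem value_pure (Q : TwoProbes S W) (ψ : Conf S W → ℂ) :
    ∑ x, ∑ y, conj (ψ x) * Q.accept x y * ψ y =
      ∑ z, ∑ p, ∑ p', conj (PhiQ ψ z p) * NQ Q p p' * PhiQ ψ z p' := by
  have hacc : ∀ x y, Q.accept x y = ∑ v, at2 Q.first (Q.second v) (eff (Q.K v) (Q.F v)) x y := by
    intro x y
    unfold TwoProbes.accept
    rw [Matrix.sum_apply]
    refine sum_congr rfl fun v _ => ?_
    rw [sandwich (Q.ne v)]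
  have h1 : ∑ x, ∑ y, conj (ψ x) * Q.accept x y * ψ y = ∑ v, ∑ x, ∑ y,
      (if ∀ c, c ≠ Q.first → c ≠ Q.second v → x c = y c then
        conj (ψ x) * eff (Q.K v) (Q.F v) (x Q.first, x (Q.second v)) (y Q.first, y (Q.second v)) *
          ψ y else 0) := by
    have e1 : ∀ x y, conj (ψ x) * Q.accept x y * ψ y = ∑ v,
      (if ∀ c, c ≠ Q.first → c ≠ Q.second v → x c = y c then
        conj (ψ x) * eff (Q.K v) (Q.F v) (x Q.first, x (Q.second v)) (y Q.first, y (Q.second v)) *
          ψ y else 0) := by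
      intro x y
      rw [hacc, mul_sum, sum_mul]
      refine sum_congr rfl fun v _ => ?_
      unfold at2
      split_ifs
      · rfl
      · rw [mul_zero, zero_mul]
    simp only [e1]
    have e2 : ∀ x : Conf S W, ∑ y : Conf S W, ∑ v,
      (if ∀ c, c ≠ Q.first → c ≠ Q.second v → x c = y c then
        conj (ψ x) * eff (Q.K v) (Q.F v) (x Q.first, x (Q.second v)) (y Q.first, y (Q.second v)) *
          ψ y else 0) = ∑ v, ∑ y : Conf S W,
      (if ∀ c, c ≠ Q.first → c ≠ Q.second v → x c = y c then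
        conj (ψ x) * eff (Q.K v) (Q.F v) (x Q.first, x (Q.second v)) (y Q.first, y (Q.second v)) *
          ψ y else 0) := fun x => sum_comm
    simp only [e2]
    exact sum_comm
  have h2 : ∀ z, ∑ p, ∑ p', conj (PhiQ ψ z p) * NQ Q p p' * PhiQ ψ z p' = ∑ v, ∑ i, ∑ j,
      conj (ψ (Function.update z Q.first i)) *
        eff (Q.K v) (Q.F v) (i, z (Q.second v)) (z Q.first, j) *
        ψ (Function.update z (Q.second v) j) := by
    intro z
    simp only [← one_pair]
    have e3 : ∀ p p', conj (PhiQ ψ z p) * NQ Q p p' * PhiQ ψ z p' = ∑ v, conj (PhiQ ψ z p) *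
        (if p.1 = Q.first ∧ p'.1 = Q.second v then
          eff (Q.K v) (Q.F v) (p.2.2, p'.2.1) (p.2.1, p'.2.2) else 0) * PhiQ ψ z p' := by
      intro p p'
      unfold NQ
      rw [mul_sum, sum_mul]
    simp only [e3]
    have e4 : ∀ p : PP S W, ∑ p' : PP S W, ∑ v, conj (PhiQ ψ z p) *
        (if p.1 = Q.first ∧ p'.1 = Q.second v then
          eff (Q.K v) (Q.F v) (p.2.2, p'.2.1) (p.2.1, p'.2.2) else 0) * PhiQ ψ z p' =
        ∑ v, ∑ p' : PP S W, conj (PhiQ ψ z p) *
        (if p.1 = Q.first ∧ p'.1 = Q.second v then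
          eff (Q.K v) (Q.F v) (p.2.2, p'.2.1) (p.2.1, p'.2.2) else 0) * PhiQ ψ z p' :=
      fun p => sum_comm
    simp only [e4]
    exact sum_comm
  rw [h1]
  simp only [h2]
  rw [sum_comm (s := (univ : Finset (Conf S W)))]
  refine sum_congr rfl fun v _ => ?_
  rw [sum_pair (Q.ne v)]
  refine sum_congr rfl fun z _ => sum_congr rfl fun i _ => sum_congr rfl fun j _ => ?_
  rw [Function.update_self, Function.update_of_ne (Q.ne v), Function.update_self,
    Function.update_of_ne (Q.ne v).symm]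

theorem norm_pure (ψ : Conf S W → ℂ) (a : Fin S) :
    ∑ z, ∑ p : PP S W, (if p.1 = a then ‖PhiQ ψ z p‖ ^ 2 else 0) = W * ∑ x, ‖ψ x‖ ^ 2 := by
  have h1 : ∀ z, ∑ p : PP S W, (if p.1 = a then ‖PhiQ ψ z p‖ ^ 2 else 0) =
      ∑ i, ‖ψ (Function.update z a i)‖ ^ 2 := by
    intro z
    rw [sum_cell, Finset.sum_eq_single (z a)]
    · refine sum_congr rfl fun i _ => ?_
      unfold PhiQ
      rw [if_pos rfl]
    · intro i0 _ hi
      refine sum_eq_zero fun i _ => ?_
      unfold PhiQ
      rw [if_neg (fun h => hi (Eq.symm h))]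
      simp
    · simp
  simp only [h1]
  rw [sum_swap a (fun _ y => ‖ψ y‖ ^ 2)]
  simp only [sum_const, card_univ, Fintype.card_fin, nsmul_eq_mul]
  rw [← mul_sum]

/-- **The value of a query.** -/
theorem value (ρ : Matrix (Conf S W) (Conf S W) ℂ) (hρ : ρ.PosSemidef) (ht : ρ.trace = 1) :
    ∃ (m : ℕ) (ψ : Fin m → Conf S W → ℂ),
      (∀ Q : TwoProbes S W, Q.prob ρ = ∑ t : Fin m × Conf S W, qv (NQ Q) (PhiQ (ψ t.1) t.2)) ∧
      ∀ a : Fin S, ∑ t : Fin m × Conf S W, ∑ p : PP S W,
        (if p.1 = a then ‖PhiQ (ψ t.1) t.2 p‖ ^ 2 else 0) ≤ W := by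
  obtain ⟨m, ψ, hψ⟩ := Matrix.posSemidef_iff_eq_sum_vecMulVec.1 hρ
  have hψ' : ∀ x y, ρ x y = ∑ s, ψ s x * conj (ψ s y) := by
    intro x y
    rw [hψ, Matrix.sum_apply]
    rfl
  refine ⟨m, ψ, ?_, ?_⟩
  · intro Q
    have h1 : (ρ * Q.accept).trace = ∑ s, ∑ x, ∑ y, conj (ψ s x) * Q.accept x y * ψ s y := by
      unfold Matrix.trace
      simp only [Matrix.diag_apply, Matrix.mul_apply, hψ', sum_mul]
      rw [sum_comm]
      have e1 : ∀ y : Conf S W, ∑ x : Conf S W, ∑ s, ψ s x * conj (ψ s y) * Q.accept y x =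
          ∑ s, ∑ x : Conf S W, conj (ψ s y) * Q.accept y x * ψ s x := by
        intro y
        rw [sum_comm]
        refine sum_congr rfl fun s _ => sum_congr rfl fun x _ => ?_
        ring
      simp only [e1]
      exact sum_comm
    unfold TwoProbes.prob
    rw [h1]
    simp only [value_pure]
    rw [Complex.re_sum, Fintype.sum_prod_type]
    refine sum_congr rfl fun s _ => ?_
    rw [Complex.re_sum]
    rfl
  · intro a
    rw [Fintype.sum_prod_type]
    simp only [norm_pure]
    rw [← mul_sum]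
    have h2 : ∑ s, ∑ x, ‖ψ s x‖ ^ 2 = 1 := by
      have e1 : ρ.trace = ((∑ s, ∑ x, ‖ψ s x‖ ^ 2 : ℝ) : ℂ) := by
        unfold Matrix.trace
        simp only [Matrix.diag_apply, hψ']
        rw [sum_comm]
        push_cast
        refine sum_congr rfl fun s _ => sum_congr rfl fun x _ => ?_
        have := Complex.mul_conj (ψ s x)
        rw [Complex.normSq_eq_norm_sq] at this
        push_cast at this
        exact this
      rw [ht] at e1
      exact_mod_cast e1.symm
    rw [h2, mul_one]

end Pool.Agent.H34QM
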