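import Pool.Agent.H34QM.Model
import Pool.Agent.H34QM.Abs

set_option autoImplicit false

/-!
# The value of a query as a quadratic form with small loads
-/

namespace Pool.Agent.H34QM

open Finset Matrix
open scoped Classical ComplexConjugate ComplexOrder

section Sums

variable {S W : ℕ} {G : Type} [AddCommMonoid G]

theorem sum_off1 (a : Fin S) (x : Conf S W) (g : Conf S W → G) :
    ∑ y, (if ∀ c, c ≠ a → y c = x c then g y else 0) = ∑ s, g (Function.update x a s) := by
  rw [← sum_filter]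
  refine (sum_nbij' (fun s => Function.update x a s) (fun y => y a) ?_ ?_ ?_ ?_ ?_).symm
  · intro s _
    rw [mem_filter]
    refine ⟨mem_univ _, fun c hc => ?_⟩
    rw [Function.update_of_ne hc]
  · intro y _
    exact mem_univ _
  · intro s _
    simp
  · intro y hy
    rw [mem_filter] at hy
    funext c
    by_cases hc : c = a
    · subst hc
      simp
    · rw [Function.update_of_ne hc, hy.2 c hc]
  · intro s _
    rfl

theorem sum_swap (a : Fin S) (h : Conf S W → Conf S W → G) :
    ∑ z, ∑ i, h z (Function.update z a i) = ∑ x, ∑ s, h (Function.update x a s) x := by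
  have h1 : ∀ z : Conf S W, ∑ i, h z (Function.update z a i) =
      ∑ x, (if ∀ c, c ≠ a → x c = z c then h z x else 0) := fun z => (sum_off1 a z (h z)).symm
  have h2 : ∀ x : Conf S W, ∑ s, h (Function.update x a s) x =
      ∑ z, (if ∀ c, c ≠ a → z c = x c then h z x else 0) :=
    fun x => (sum_off1 a x (fun z => h z x)).symm
  simp only [h1, h2]
  rw [sum_comm]
  refine sum_congr rfl fun x _ => sum_congr rfl fun z _ => ?_
  have h3 : (∀ c, c ≠ a → x c = z c) ↔ (∀ c, c ≠ a → z c = x c) :=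
    ⟨fun h c hc => (h c hc).symm, fun h c hc => (h c hc).symm⟩
  by_cases h4 : ∀ c, c ≠ a → z c = x c
  · rw [if_pos h4, if_pos (h3.2 h4)]
  · rw [if_neg h4, if_neg (fun h => h4 (h3.1 h))]

theorem sum_off2 {a b : Fin S} (hab : b ≠ a) (x : Conf S W) (g : Conf S W → G) :
    ∑ y, (if ∀ c, c ≠ a → c ≠ b → x c = y c then g y else 0) =
      ∑ s, ∑ t, g (Function.update (Function.update x a s) b t) := by
  have h1 : ∀ s, ∑ t, g (Function.update (Function.update x a s) b t) =
      ∑ y, (if ∀ c, c ≠ b → y c = Function.update x a s c then g y else 0) :=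
    fun s => (sum_off1 b (Function.update x a s) g).symm
  simp only [h1]
  rw [sum_comm]
  refine sum_congr rfl fun y _ => ?_
  rw [Finset.sum_eq_single (y a)]
  · have h3 : (∀ c, c ≠ a → c ≠ b → x c = y c) ↔
        (∀ c, c ≠ b → y c = Function.update x a (y a) c) := by
      constructor
      · intro h c hc
        by_cases h4 : c = a
        · subst h4; simp
        · rw [Function.update_of_ne h4, h c h4 hc]
      · intro h c hc hcb
        have := h c hcb
        rw [Function.update_of_ne hc] at this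
        exact this.symm
    by_cases h4 : ∀ c, c ≠ a → c ≠ b → x c = y c
    · rw [if_pos h4, if_pos (h3.1 h4)]
    · rw [if_neg h4, if_neg (fun h => h4 (h3.2 h))]
  · intro s _ hs
    rw [if_neg]
    intro h
    have := h a (Ne.symm hab)
    rw [Function.update_self] at this
    exact hs this.symm
  · simp

theorem sum_pair {a b : Fin S} (hab : b ≠ a) (f : Conf S W → Conf S W → G) :
    ∑ x, ∑ y, (if ∀ c, c ≠ a → c ≠ b → x c = y c then f x y else 0) =
      ∑ z, ∑ i, ∑ j, f (Function.update z a i) (Function.update z b j) := by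
  simp only [sum_off2 hab]
  rw [sum_swap a (fun z x => ∑ j, f x (Function.update z b j))]

end Sums

section Ops

variable {S W : ℕ}

/-- `A ⊗ 1` -/
noncomputable def amp (A : Matrix (Fin W) (Fin W) ℂ) : Matrix (Fin W × Fin W) (Fin W × Fin W) ℂ :=
  fun p p' => if p.2 = p'.2 then A p.1 p'.1 else 0

theorem at2_mul_at1 {a b : Fin S} (hab : b ≠ a) (F : Matrix (Fin W × Fin W) (Fin W × Fin W) ℂ)
    (A : Matrix (Fin W) (Fin W) ℂ) : at2 a b F * at1 a A = at2 a b (F * amp A) := by
  ext x z
  rw [Matrix.mul_apply]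
  have h1 : ∀ y : Conf S W, at2 a b F x y * at1 a A y z =
      if ∀ c, c ≠ a → y c = z c then at2 a b F x y * A (y a) (z a) else 0 := by
    intro y
    unfold at1
    rw [mul_ite, mul_zero]
  simp only [h1]
  rw [sum_off1 a z]
  unfold at2
  by_cases h : ∀ c, c ≠ a → c ≠ b → x c = z c
  · rw [if_pos h, Matrix.mul_apply, Fintype.sum_prod_type]
    refine sum_congr rfl fun s _ => ?_
    have h2 : ∀ c, c ≠ a → c ≠ b → x c = Function.update z a s c := by
      intro c hc hcb
      rw [Function.update_of_ne hc, h c hc hcb]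
    rw [if_pos h2, Function.update_self, Function.update_of_ne hab]
    rw [Finset.sum_eq_single (z b)]
    · simp [amp]
    · intro t _ ht
      simp [amp, ht]
    · simp
  · rw [if_neg h]
    refine sum_eq_zero fun s _ => ?_
    rw [if_neg, zero_mul]
    intro h2
    apply h
    intro c hc hcb
    have := h2 c hc hcb
    rw [Function.update_of_ne hc] at this
    exact this

theorem at2_conjTranspose (a b : Fin S) (F : Matrix (Fin W × Fin W) (Fin W × Fin W) ℂ) :
    (at2 a b F)ᴴ = at2 a b Fᴴ := by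
  ext x y
  rw [Matrix.conjTranspose_apply]
  unfold at2
  have h3 : (∀ c, c ≠ a → c ≠ b → x c = y c) ↔ (∀ c, c ≠ a → c ≠ b → y c = x c) :=
    ⟨fun h c hc hcb => (h c hc hcb).symm, fun h c hc hcb => (h c hc hcb).symm⟩
  by_cases h4 : ∀ c, c ≠ a → c ≠ b → x c = y c
  · rw [if_pos h4, if_pos (h3.1 h4), Matrix.conjTranspose_apply]
  · rw [if_neg h4, if_neg (fun h => h4 (h3.2 h)), star_zero]

/-- the effect before the first measurement -/
noncomputable def eff (A : Matrix (Fin W) (Fin W) ℂ)
    (F : Matrix (Fin W × Fin W) (Fin W × Fin W) ℂ) : Matrix (Fin W × Fin W) (Fin W × Fin W) ℂ :=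
  (amp A)ᴴ * F * amp A

theorem sandwich {a b : Fin S} (hab : b ≠ a) (F : Matrix (Fin W × Fin W) (Fin W × Fin W) ℂ)
    (A : Matrix (Fin W) (Fin W) ℂ) :
    (at1 a A)ᴴ * at2 a b F * at1 a A = at2 a b (eff A F) := by
  rw [Matrix.mul_assoc, at2_mul_at1 hab]
  have h1 : (at1 a A)ᴴ * at2 a b (F * amp A) = (at2 a b (F * amp A)ᴴ * at1 a A)ᴴ := by
    rw [Matrix.conjTranspose_mul, at2_conjTranspose, Matrix.conjTranspose_conjTranspose]
  rw [h1, at2_mul_at1 hab, at2_conjTranspose, Matrix.conjTranspose_mul,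
    Matrix.conjTranspose_conjTranspose]
  unfold eff
  rw [Matrix.mul_assoc]

end Ops

/-! ### Effects -/

section Effects

variable {X : Type} [Fintype X]

/-- a vector of the decomposition of `F` applied to `u` -/
noncomputable def hv (g u : X → ℂ) : ℂ := ∑ x, conj (g x) * u x

theorem form_hv {F : Matrix X X ℂ} {m : ℕ} {g : Fin m → X → ℂ}
    (hg : ∀ x y, F x y = ∑ s, g s x * conj (g s y)) (u w : X → ℂ) :
    ∑ x, ∑ y, conj (u x) * F x y * w y = ∑ s, conj (hv (g s) u) * hv (g s) w := by
  have h1 : ∀ x y, conj (u x) * F x y * w y = ∑ s, (g s x * conj (u x)) * (conj (g s y) * w y) := by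
    intro x y
    rw [hg, mul_sum, sum_mul]
    exact sum_congr rfl fun s _ => by ring
  have h2 : ∀ s, conj (hv (g s) u) * hv (g s) w =
      ∑ x, ∑ y, (g s x * conj (u x)) * (conj (g s y) * w y) := by
    intro s
    unfold hv
    rw [map_sum, sum_mul]
    refine sum_congr rfl fun x _ => ?_
    rw [mul_sum]
    refine sum_congr rfl fun y _ => ?_
    rw [map_mul, Complex.conj_conj]
  simp only [h1, h2]
  have h3 : ∀ x, ∑ y, ∑ s, (g s x * conj (u x)) * (conj (g s y) * w y) =
      ∑ s, ∑ y, (g s x * conj (u x)) * (conj (g s y) * w y) := fun x => sum_comm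
  simp only [h3]
  exact sum_comm

theorem quad_bound [DecidableEq X] {F : Matrix X X ℂ} (hF : F.PosSemidef) (hF1 : (1 - F).PosSemidef)
    (u w : X → ℂ) : ‖∑ x, ∑ y, conj (u x) * F x y * w y‖ ≤
      (∑ x, ‖u x‖ ^ 2 + ∑ x, ‖w x‖ ^ 2) / 2 := by
  obtain ⟨m, g, hg⟩ := Matrix.posSemidef_iff_eq_sum_vecMulVec.1 hF
  have hg' : ∀ x y, F x y = ∑ s, g s x * conj (g s y) := by
    intro x y
    rw [hg, Matrix.sum_apply]
    rfl
  have h1 : ∀ u : X → ℂ, ∑ s, ‖hv (g s) u‖ ^ 2 ≤ ∑ x, ‖u x‖ ^ 2 := by
    intro u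
    have h2 := hF1.dotProduct_mulVec_nonneg u
    have h3 : star u ⬝ᵥ (1 - F) *ᵥ u = ∑ x, conj (u x) * u x - ∑ x, ∑ y, conj (u x) * F x y * u y := by
      rw [Matrix.sub_mulVec, Matrix.one_mulVec, dotProduct_sub]
      congr 1
      unfold dotProduct Matrix.mulVec dotProduct
      refine sum_congr rfl fun x _ => ?_
      rw [mul_sum]
      refine sum_congr rfl fun y _ => ?_
      rw [mul_assoc]
      rfl
    rw [h3, form_hv hg'] at h2
    have h4 := (Complex.le_def.1 h2).1
    have h5 : ∀ z : ℂ, (conj z * z).re = ‖z‖ ^ 2 := by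
      intro z
      rw [mul_comm, Complex.mul_conj, Complex.ofReal_re, Complex.normSq_eq_norm_sq]
    rw [Complex.sub_re, Complex.re_sum, Complex.re_sum, Complex.zero_re] at h4
    simp only [h5] at h4
    linarith
  rw [form_hv hg']
  refine (norm_sum_le _ _).trans ?_
  calc ∑ s, ‖conj (hv (g s) u) * hv (g s) w‖ ≤
      ∑ s, (‖hv (g s) u‖ ^ 2 + ‖hv (g s) w‖ ^ 2) / 2 := by
        refine sum_le_sum fun s _ => ?_
        rw [norm_mul, RCLike.norm_conj]
        have := two_mul_le_add_sq ‖hv (g s) u‖ ‖hv (g s) w‖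
        linarith
    _ = (∑ s, ‖hv (g s) u‖ ^ 2 + ∑ s, ‖hv (g s) w‖ ^ 2) / 2 := by
        rw [← sum_add_distrib, sum_div]
    _ ≤ _ := by linarith [h1 u, h1 w]

end Effects

end Pool.Agent.H34QM
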