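import Mathlib

set_option autoImplicit false

/-!
# A quantum memory and queries with two adaptive probes
-/

namespace Pool.Agent.H34QM

open Finset Matrix
open scoped Classical ComplexConjugate ComplexOrder

/-- The basis states of a memory of `S` cells with `W` levels each. -/
abbrev Conf (S W : ℕ) : Type := Fin S → Fin W

/-- The operator `A` on the cell `a` (and the identity on the other cells). -/
noncomputable def at1 {S W : ℕ} (a : Fin S) (A : Matrix (Fin W) (Fin W) ℂ) :
    Matrix (Conf S W) (Conf S W) ℂ :=
  fun x y => if ∀ c, c ≠ a → x c = y c then A (x a) (y a) else 0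

/-- The operator `F` on the pair of cells `a`, `b` (and the identity on the other cells). -/
noncomputable def at2 {S W : ℕ} (a b : Fin S) (F : Matrix (Fin W × Fin W) (Fin W × Fin W) ℂ) :
    Matrix (Conf S W) (Conf S W) ℂ :=
  fun x y => if ∀ c, c ≠ a → c ≠ b → x c = y c then F (x a, x b) (y a, y b) else 0

/-- A query algorithm with two adaptive probes: the measurement with the Kraus operators `K v` is
applied to the cell `first`; if the outcome is `v` then the measurement with the effect `F v` is
applied to the two cells `first` and `second v`, and the answer is positive if the effect occurs. -/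
structure TwoProbes (S W : ℕ) where
  /-- the first cell -/
  first : Fin S
  /-- the number of outcomes of the first measurement -/
  outcomes : ℕ
  /-- the Kraus operators of the first measurement -/
  K : Fin outcomes → Matrix (Fin W) (Fin W) ℂ
  /-- the first measurement is complete -/
  complete : ∑ v, (K v)ᴴ * K v = 1
  /-- the second cell -/
  second : Fin outcomes → Fin S
  /-- the two cells are different -/
  ne : ∀ v, second v ≠ first
  /-- the effect on the two cells -/
  F : Fin outcomes → Matrix (Fin W × Fin W) (Fin W × Fin W) ℂ
  /-- `0 ≤ F v ≤ 1` -/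
  effect : ∀ v, (F v).PosSemidef ∧ (1 - F v).PosSemidef

/-- The operator of the positive answer. -/
noncomputable def TwoProbes.accept {S W : ℕ} (Q : TwoProbes S W) :
    Matrix (Conf S W) (Conf S W) ℂ :=
  ∑ v, (at1 Q.first (Q.K v))ᴴ * at2 Q.first (Q.second v) (Q.F v) * at1 Q.first (Q.K v)

/-- The probability of the positive answer in the state `ρ`. -/
noncomputable def TwoProbes.prob {S W : ℕ} (Q : TwoProbes S W)
    (ρ : Matrix (Conf S W) (Conf S W) ℂ) : ℝ := (ρ * Q.accept).trace.re

/-- A data structure for two arrays of `n` integers: the memory is a quantum state (density matrix)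
of `S` cells with `W` levels each, which depends in any way on the arrays; a query `z` makes two
adaptive probes. -/
structure QuantumDS (n S W : ℕ) where
  /-- the state of the memory -/
  memory : (Fin n → ℕ) → (Fin n → ℕ) → Matrix (Conf S W) (Conf S W) ℂ
  /-- it is a density matrix -/
  state : ∀ A₁ A₂, (memory A₁ A₂).PosSemidef ∧ (memory A₁ A₂).trace = 1
  /-- the algorithm for the query `z` -/
  query : ℕ → TwoProbes S W

/-- The probability of the right answer to the query `z`. -/
noncomputable def QuantumDS.right {n S W : ℕ} (D : QuantumDS n S W) (A₁ A₂ : Fin n → ℕ) (z : ℕ) : ℝ :=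
  if ∃ i j, A₁ i + A₂ j = z then (D.query z).prob (D.memory A₁ A₂)
  else 1 - (D.query z).prob (D.memory A₁ A₂)

/-- For all arrays of `n` integers from `{0, …, n ^ 3}` and all `z`, the random data structure `D`
(with probabilities `p`) decides whether `z` is the sum of an element of the first array and an
element of the second array, correctly with probability at least `1 / 2 + δ`. -/
def QSolves {n S W : ℕ} {Ω : Type} [Fintype Ω] (p : Ω → ℝ) (D : Ω → QuantumDS n S W)
    (δ : ℝ) : Prop :=
  (∀ ω, 0 ≤ p ω) ∧ ∑ ω, p ω = 1 ∧
    ∀ A₁ A₂ : Fin n → ℕ, (∀ i, A₁ i ≤ n ^ 3) → (∀ i, A₂ i ≤ n ^ 3) → ∀ z : ℕ,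
      1 / 2 + δ ≤ ∑ ω, p ω * (D ω).right A₁ A₂ z

end Pool.Agent.H34QM
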